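import Mathlib

/-!
Definitions for MP_c785a0_an: iterated function systems on the closed unit disc.
-/

set_option autoImplicit false

namespace Pool.Agent.Helper65K9.IFS
open Set Filter
open scoped ENNReal NNReal Topology ComplexConjugate

/-- the closed unit disc -/
def X : Set ℂ := Metric.closedBall 0 1

/-- the composition `s_ω = s_{ω_1} ∘ ... ∘ s_{ω_N}` along a finite word `ω` -/
def word {ι : Type} (s : ι → ℂ → ℂ) : List ι → ℂ → ℂ
  | [] => id
  | i :: w => s i ∘ word s w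

/-- the limit set: the union over the infinite words `ω` of the intersections over `N ≥ 1` of the
images of the disc under the compositions along the first `N` letters of `ω` -/
def limitSet {ι : Type} (s : ι → ℂ → ℂ) : Set ℂ :=
  {x | ∃ ω : ℕ → ι, ∀ N : ℕ, 1 ≤ N → x ∈ word s (List.ofFn fun k : Fin N => ω k) '' X}

/-- The countable family `s` of injective maps of the closed unit disc `X` with
`sup_i Lip (s_i) < 1` is a conformal iterated function system: (i) the images of the interior are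
disjoint; ((ii), the cone condition, is automatic for the disc;) (iii) the maps extend to maps `S i`
of one open connected `V ⊇ X` into itself which are holomorphic and injective with nonvanishing
Hölder continuous derivative; (iv) there is `K ≥ 1` with `|S_ω'(y)| ≤ K |S_ω'(x)|` for all finite
words `ω` and all `x, y ∈ V`. -/
structure IsCIFS {ι : Type} (s : ι → ℂ → ℂ) : Prop where
  countable : Countable ι
  maps : ∀ i, MapsTo (s i) X X
  inj : ∀ i, InjOn (s i) X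
  lip : ∃ c : ℝ, c < 1 ∧ ∀ i, ∀ x ∈ X, ∀ y ∈ X, ‖s i x - s i y‖ ≤ c * ‖x - y‖
  disjoint : ∀ i j, i ≠ j → Disjoint (s i '' interior X) (s j '' interior X)
  extend : ∃ V : Set ℂ, IsOpen V ∧ IsConnected V ∧ X ⊆ V ∧ ∃ S : ι → ℂ → ℂ,
    (∀ i, EqOn (S i) (s i) X) ∧ (∀ i, MapsTo (S i) V V) ∧ (∀ i, DifferentiableOn ℂ (S i) V) ∧
    (∀ i, InjOn (S i) V) ∧ (∀ i, ∀ z ∈ V, deriv (S i) z ≠ 0) ∧
    (∃ ε : ℝ, 0 < ε ∧ ∀ i, ∃ L : ℝ, ∀ x ∈ V, ∀ y ∈ V,
      ‖deriv (S i) x - deriv (S i) y‖ ≤ L * ‖x - y‖ ^ ε) ∧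
    ∃ K : ℝ, 1 ≤ K ∧ ∀ w : List ι, ∀ x ∈ V, ∀ y ∈ V,
      ‖deriv (word S w) y‖ ≤ K * ‖deriv (word S w) x‖

/-- the sum over the words `ω` of length `N` of `sup_X |s_ω'|^t` -/
noncomputable def pressureSum {ι : Type} (s : ι → ℂ → ℂ) (N : ℕ) (t : ℝ) : ℝ≥0∞ :=
  ∑' w : Fin N → ι, ⨆ x ∈ X, ENNReal.ofReal (‖deriv (word s (List.ofFn w)) x‖ ^ t)

/-- the pressure at `t` exists and has the value `P` -/
def HasPressure {ι : Type} (s : ι → ℂ → ℂ) (t : ℝ) (P : EReal) : Prop :=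
  Tendsto (fun N : ℕ => ENNReal.log (pressureSum s N t) / (N : EReal)) atTop (𝓝 P)

/-- the pressure has a zero `t ≥ 0` -/
def Regular {ι : Type} (s : ι → ℂ → ℂ) : Prop := ∃ t : ℝ, 0 ≤ t ∧ HasPressure s t 0

/-- `f_α(z) = (z + conj α) / (|α|² - 1)` -/
noncomputable def fMap (α z : ℂ) : ℂ := (z + conj α) / ((‖α‖ ^ 2 - 1 : ℝ) : ℂ)

/-- `g_α(z) = 1 / (z + α)` -/
noncomputable def gMap (α z : ℂ) : ℂ := 1 / (z + α)

/-- the parameter `e(j/T) d_n`, `e(θ) = exp (2 π i θ)` -/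
noncomputable def param (d : ℕ → ℝ) (T : ℕ) (i : ℕ × Fin T) : ℂ :=
  Complex.exp (2 * Real.pi * Complex.I * ((i.2 : ℕ) / T : ℝ)) * (d i.1 : ℂ)

/-- the family `F(d, T)`; `d n` stands for `d_{n+1}` -/
noncomputable def famF (d : ℕ → ℝ) (T : ℕ) : ℕ × Fin T → ℂ → ℂ := fun i => fMap (param d T i)

/-- the family `G(d, T)`; `d n` stands for `d_{n+1}` -/
noncomputable def famG (d : ℕ → ℝ) (T : ℕ) : ℕ × Fin T → ℂ → ℂ := fun i => gMap (param d T i)

end Pool.Agent.Helper65K9.IFS
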