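import Pool.Agent.Helper65K9.IFS.Reg

/-!
The families for `T = 2` and `d_n = (2 + 10^(-8)) 10^(4 (n-1))`.
-/

set_option autoImplicit false

namespace Pool.Agent.Helper65K9.IFS
open Set Filter
open scoped ENNReal NNReal Topology ComplexConjugate

/-- the sequence; `dd n` stands for `d_{n+1}` -/
noncomputable def dd (n : ℕ) : ℝ := (2 + 1 / 10 ^ 8) * 10 ^ (4 * n)

theorem dd_zero : dd 0 = 2 + 1 / 10 ^ 8 := by simp [dd]

theorem dd_step (n : ℕ) : 2 ≤ dd (n + 1) - dd n := by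
  unfold dd
  have h1 : (1 : ℝ) ≤ 10 ^ (4 * n) := one_le_pow₀ (by norm_num)
  have h2 : (10 : ℝ) ^ (4 * (n + 1)) = 10 ^ 4 * 10 ^ (4 * n) := by rw [← pow_add]; ring_nf
  rw [h2]
  nlinarith

theorem dd_gap {m n : ℕ} (h : m < n) : 2 ≤ dd n - dd m := by
  induction n, h using Nat.le_induction with
  | base => exact dd_step m
  | succ k _ ih =>
    have := dd_step k
    linarith

theorem dd_ge (n : ℕ) : 2 + 1 / 10 ^ 8 ≤ dd n := by
  rcases Nat.eq_zero_or_pos n with h | h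
  · rw [h, dd_zero]
  · have := dd_gap h
    rw [dd_zero] at this
    linarith

theorem dd_pos (n : ℕ) : 0 < dd n := by
  have := dd_ge n
  have h2 : (0 : ℝ) < 1 / 10 ^ 8 := by norm_num
  linarith

theorem param_zero (n : ℕ) : param dd 2 (n, 0) = (dd n : ℂ) := by
  simp [param]

theorem param_one (n : ℕ) : param dd 2 (n, 1) = -(dd n : ℂ) := by
  have h1 : (2 * Real.pi * Complex.I * (((1 : ℕ) / (2 : ℕ) : ℝ)) : ℂ) = Real.pi * Complex.I := by
    push_cast
    ring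
  unfold param
  simp only [Fin.val_one]
  rw [h1, Complex.exp_pi_mul_I]
  ring

theorem param_cases (i : ℕ × Fin 2) : param dd 2 i = (dd i.1 : ℂ) ∨ param dd 2 i = -(dd i.1 : ℂ) := by
  obtain ⟨n, j⟩ := i
  fin_cases j
  · left; exact param_zero n
  · right; exact param_one n

theorem norm_param (i : ℕ × Fin 2) : ‖param dd 2 i‖ = dd i.1 := by
  rcases param_cases i with h | h
  · rw [h, Complex.norm_real, Real.norm_eq_abs, abs_of_pos (dd_pos _)]
  · rw [h, norm_neg, Complex.norm_real, Real.norm_eq_abs, abs_of_pos (dd_pos _)]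

theorem par_dd : Par (param dd 2) (2 + 1 / 10 ^ 8) (1 + 1 / 20000) (1 + 1 / 10000) := by
  refine ⟨by norm_num, fun i => ?_, by norm_num, by norm_num, by norm_num, by norm_num, by norm_num⟩
  rw [norm_param]
  exact dd_ge _

theorem param_sep (i j : ℕ × Fin 2) (hij : i ≠ j) : 2 ≤ ‖param dd 2 i - param dd 2 j‖ := by
  rcases lt_trichotomy i.1 j.1 with h | h | h
  · have h1 := dd_gap h
    have h2 := norm_sub_norm_le (param dd 2 j) (param dd 2 i)
    rw [norm_param, norm_param, norm_sub_rev] at h2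
    linarith
  · obtain ⟨n, k⟩ := i
    obtain ⟨n', k'⟩ := j
    simp only at h
    subst h
    have hkk : k ≠ k' := fun h => hij (by rw [h])
    have h1 := dd_ge n
    have h3 : ‖(dd n : ℂ) - -(dd n : ℂ)‖ = 2 * dd n := by
      have : (dd n : ℂ) - -(dd n : ℂ) = ((2 * dd n : ℝ) : ℂ) := by push_cast; ring
      rw [this, Complex.norm_real, Real.norm_eq_abs, abs_of_pos (by linarith [dd_pos n])]
    have h4 : 2 ≤ 2 * dd n := by
      have h2 : (0 : ℝ) < 1 / 10 ^ 8 := by norm_num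
      linarith
    fin_cases k <;> fin_cases k'
    · exact absurd rfl hkk
    · change 2 ≤ ‖param dd 2 (n, 0) - param dd 2 (n, 1)‖
      rw [param_zero, param_one, h3]
      exact h4
    · change 2 ≤ ‖param dd 2 (n, 1) - param dd 2 (n, 0)‖
      rw [param_zero, param_one, norm_sub_rev, h3]
      exact h4
    · exact absurd rfl hkk
  · have h1 := dd_gap h
    have h2 := norm_sub_norm_le (param dd 2 i) (param dd 2 j)
    rw [norm_param, norm_param] at h2
    linarith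

theorem isCIFS_G : IsCIFS (famG dd 2) := isCIFS_g par_dd param_sep

/-- geometric sums -/
theorem sum_geom {u : ℕ × Fin 2 → ℝ} {C q : ℝ} (hC : 0 ≤ C) (hq : 0 ≤ q) (hq1 : q < 1)
    (hu : ∀ i, u i ≤ C * q ^ i.1) : ∑' i, ENNReal.ofReal (u i) ≤ ENNReal.ofReal (2 * C / (1 - q)) := by
  refine (ENNReal.tsum_le_tsum fun i => ENNReal.ofReal_le_ofReal (hu i)).trans ?_
  rw [ENNReal.tsum_prod' (f := fun i : ℕ × Fin 2 => ENNReal.ofReal (C * q ^ i.1))]
  have h1 : ∀ n : ℕ, ∑' _ : Fin 2, ENNReal.ofReal (C * q ^ n) = ENNReal.ofReal (2 * C * q ^ n) := by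
    intro n
    rw [tsum_fintype, Fin.sum_univ_two, ← ENNReal.ofReal_add (by positivity) (by positivity)]
    congr 1
    ring
  simp only [h1]
  rw [← ENNReal.ofReal_tsum_of_nonneg (fun n => by positivity)
    ((summable_geometric_of_lt_one hq hq1).mul_left _), tsum_mul_left,
    tsum_geometric_of_lt_one hq hq1]
  exact ENNReal.ofReal_le_ofReal (le_of_eq (by rw [div_eq_mul_inv]))

theorem b_le (n : ℕ) : 1 / (dd n - 1) ^ 2 ≤ 1 / (1 + 1 / 10 ^ 8) ^ 2 * (1 / 10 ^ 8) ^ n := by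
  have h1 : (1 + 1 / 10 ^ 8 : ℝ) * 10 ^ (4 * n) ≤ dd n - 1 := by
    unfold dd
    have h1 : (1 : ℝ) ≤ 10 ^ (4 * n) := one_le_pow₀ (by norm_num)
    nlinarith
  have h2 : 1 / (1 + 1 / 10 ^ 8) ^ 2 * (1 / 10 ^ 8 : ℝ) ^ n =
      1 / ((1 + 1 / 10 ^ 8 : ℝ) * 10 ^ (4 * n)) ^ 2 := by
    rw [mul_pow, ← pow_mul, one_div_pow, one_div_mul_one_div, ← pow_mul]
    congr 3
    ring
  rw [h2]
  exact one_div_le_one_div_of_le (by positivity) (pow_le_pow_left₀ (by positivity) h1 2)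

theorem pow_rpow_comm {x : ℝ} (hx : 0 ≤ x) (n : ℕ) (t : ℝ) : (x ^ n) ^ t = (x ^ t) ^ n := by
  rw [← Real.rpow_natCast x n, ← Real.rpow_mul hx, mul_comm, Real.rpow_mul hx, Real.rpow_natCast]

theorem rpow_succ_le {b : ℝ} (hb : 0 < b) (hb1 : b ≤ 1) (k : ℕ) : b ^ ((k : ℝ) + 1) ≤ b ^ k := by
  rw [← Real.rpow_natCast b k]
  exact Real.rpow_le_rpow_of_exponent_ge hb hb1 (by linarith)

theorem b_rpow_le (t : ℝ) (ht : 0 < t) (i : ℕ × Fin 2) : (1 / (‖param dd 2 i‖ - 1) ^ 2) ^ t ≤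
    (1 / (1 + 1 / 10 ^ 8) ^ 2) ^ t * ((1 / 10 ^ 8) ^ t) ^ i.1 := by
  rw [norm_param]
  refine (Real.rpow_le_rpow (by positivity) (b_le i.1) ht.le).trans (le_of_eq ?_)
  rw [Real.mul_rpow (by positivity) (by positivity)]
  congr 1
  exact pow_rpow_comm (by positivity) _ _

theorem q_lt (t : ℝ) (ht : 0 < t) : ((1 : ℝ) / 10 ^ 8) ^ t < 1 :=
  Real.rpow_lt_one (by norm_num) (by norm_num) ht

theorem regular_G : Regular (famG dd 2) := by
  refine regular_g par_dd (fun t ht => ?_) ⟨1 / 4, by norm_num, ?_⟩ ?_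
  · exact ne_top_of_le_ne_top ENNReal.ofReal_ne_top
      (sum_geom (by positivity) (by positivity) (q_lt t ht) (b_rpow_le t ht))
  · have h1 : ∀ j : Fin 2, ENNReal.ofReal (1 / 2) ≤
        ENNReal.ofReal ((1 / (‖param dd 2 ((0, j) : ℕ × Fin 2)‖ + 1) ^ 2) ^ (1 / 4 : ℝ)) := by
      intro j
      refine ENNReal.ofReal_le_ofReal ?_
      rw [norm_param, dd_zero]
      have h2 : ((1 : ℝ) / 2) = (1 / 16) ^ (1 / 4 : ℝ) := by
        rw [show (1 / 16 : ℝ) = (1 / 2) ^ (4 : ℝ) by norm_num, ← Real.rpow_mul (by norm_num)]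
        norm_num
      rw [h2]
      refine Real.rpow_le_rpow (by norm_num) ?_ (by norm_num)
      norm_num
    refine le_trans ?_ (ENNReal.sum_le_tsum (Finset.univ.image fun j : Fin 2 => ((0, j) : ℕ × Fin 2)))
    rw [Finset.sum_image (by
      intro a _ b _ hab
      exact (Prod.mk.inj hab).2), Fin.sum_univ_two]
    refine le_trans (le_of_eq ?_) (add_le_add (h1 0) (h1 1))
    rw [← ENNReal.ofReal_add (by norm_num) (by norm_num), ← ENNReal.ofReal_one]
    norm_num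
  · have hb : (1 / (1 + 1 / 10 ^ 8) ^ 2 : ℝ) < 1 := by norm_num
    obtain ⟨k, hk⟩ := exists_pow_lt_of_lt_one (show (0 : ℝ) < 1 / 4 by norm_num) hb
    refine ⟨(k : ℝ) + 1, by positivity, ?_⟩
    refine (sum_geom (by positivity) (by positivity) (q_lt _ (by positivity))
      (b_rpow_le _ (by positivity))).trans_lt ?_
    rw [← ENNReal.ofReal_one, ENNReal.ofReal_lt_ofReal_iff one_pos]
    have h1 : ((1 : ℝ) / 10 ^ 8) ^ ((k : ℝ) + 1) ≤ 1 / 10 ^ 8 := by
      calc ((1 : ℝ) / 10 ^ 8) ^ ((k : ℝ) + 1) ≤ (1 / 10 ^ 8) ^ (1 : ℝ) :=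
            Real.rpow_le_rpow_of_exponent_ge (by norm_num) (by norm_num)
              (by have : (0 : ℝ) ≤ k := Nat.cast_nonneg k
                  linarith)
        _ = _ := Real.rpow_one _
    have h2 : (1 / (1 + 1 / 10 ^ 8) ^ 2 : ℝ) ^ ((k : ℝ) + 1) < 1 / 4 :=
      lt_of_le_of_lt (rpow_succ_le (by positivity) hb.le k) hk
    rw [div_lt_one (by norm_num at h1 ⊢; linarith)]
    norm_num at h1 h2 ⊢
    linarith

/-! ### the family `F` -/

theorem fMap_sub (β x y : ℂ) :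
    fMap β x - fMap β y = (x - y) / ((‖β‖ ^ 2 - 1 : ℝ) : ℂ) := by
  simp only [fMap]
  rw [← sub_div]
  congr 1
  ring

theorem A_pos (i : ℕ × Fin 2) : 3 < ‖param dd 2 i‖ ^ 2 - 1 := by
  rw [norm_param]
  have h1 := dd_ge i.1
  have h2 : (0 : ℝ) < 1 / 10 ^ 8 := by norm_num
  nlinarith

theorem norm_A (i : ℕ × Fin 2) :
    ‖((‖param dd 2 i‖ ^ 2 - 1 : ℝ) : ℂ)‖ = ‖param dd 2 i‖ ^ 2 - 1 := by
  rw [Complex.norm_real, Real.norm_eq_abs, abs_of_pos (by linarith [A_pos i])]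

theorem fMap_bound (i : ℕ × Fin 2) {z : ℂ} {r : ℝ} (hr : 1 ≤ r) (hz : ‖z‖ ≤ r) :
    ‖fMap (param dd 2 i) z‖ ≤ r := by
  have h1 := A_pos i
  rw [fMap, norm_div, norm_A, div_le_iff₀ (by linarith)]
  refine (norm_add_le _ _).trans ?_
  rw [RCLike.norm_conj]
  have h2 : 2 < ‖param dd 2 i‖ := by
    rw [norm_param]
    have h1 := dd_ge i.1
    have h2 : (0 : ℝ) < 1 / 10 ^ 8 := by norm_num
    linarith
  nlinarith

theorem fMap_lip (i : ℕ × Fin 2) (x y : ℂ) :
    ‖famF dd 2 i x - famF dd 2 i y‖ = 1 / (‖param dd 2 i‖ ^ 2 - 1) * ‖x - y‖ := by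
  unfold famF
  rw [fMap_sub, norm_div, norm_A]
  ring

theorem fMap_deriv (i : ℕ × Fin 2) (z : ℂ) :
    HasDerivAt (famF dd 2 i) (1 / ((‖param dd 2 i‖ ^ 2 - 1 : ℝ) : ℂ)) z := by
  unfold famF fMap
  exact ((hasDerivAt_id z).add_const _).div_const _

theorem word_deriv_F (w : List (ℕ × Fin 2)) : ∃ c : ℂ, ∀ z, HasDerivAt (word (famF dd 2) w) c z := by
  induction w with
  | nil => exact ⟨1, fun z => hasDerivAt_id z⟩
  | cons i w ih =>
    obtain ⟨c, hc⟩ := ih
    exact ⟨_, fun z => (fMap_deriv i _).comp z (hc z)⟩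

/-- the images of the open disc under `f_α` and `g_α` agree -/
theorem f_image (i : ℕ × Fin 2) {x : ℂ} (hx : ‖x‖ < 1) :
    ∃ y : ℂ, ‖y‖ < 1 ∧ gMap (param dd 2 i) y = fMap (param dd 2 i) x := by
  obtain ⟨α, hα⟩ : ∃ α, α = param dd 2 i := ⟨_, rfl⟩
  have hA := A_pos i
  rw [← hα] at hA ⊢
  have hα1 : 1 < ‖α‖ := by
    by_contra hcon
    push Not at hcon
    nlinarith [norm_nonneg α]
  have h0 : x + conj α ≠ 0 := by
    intro h
    have h1 : x = -conj α := eq_neg_of_add_eq_zero_left h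
    rw [h1, norm_neg, RCLike.norm_conj] at hx
    linarith
  have hA0 : ((‖α‖ ^ 2 - 1 : ℝ) : ℂ) ≠ 0 := by
    rw [Complex.ofReal_ne_zero]
    linarith
  refine ⟨-(1 + α * x) / (x + conj α), ?_, ?_⟩
  · rw [norm_div, norm_neg, div_lt_one (norm_pos_iff.2 h0)]
    have h1 : ‖1 + α * x‖ ^ 2 < ‖x + conj α‖ ^ 2 := by
      have h2 : ‖x + conj α‖ ^ 2 - ‖1 + α * x‖ ^ 2 = (‖α‖ ^ 2 - 1) * (1 - ‖x‖ ^ 2) := by
        rw [← Complex.normSq_eq_norm_sq, ← Complex.normSq_eq_norm_sq, ← Complex.normSq_eq_norm_sq,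
          ← Complex.normSq_eq_norm_sq]
        simp only [Complex.normSq_apply, Complex.add_re, Complex.add_im, Complex.mul_re,
          Complex.mul_im, Complex.one_re, Complex.one_im, Complex.conj_re, Complex.conj_im]
        ring
      have h3 : 0 < (‖α‖ ^ 2 - 1) * (1 - ‖x‖ ^ 2) := by
        refine mul_pos (by linarith) ?_
        nlinarith [norm_nonneg x]
      linarith
    exact lt_of_pow_lt_pow_left₀ 2 (norm_nonneg _) h1
  · have h2 : -(1 + α * x) / (x + conj α) + α = ((‖α‖ ^ 2 - 1 : ℝ) : ℂ) / (x + conj α) := by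
      have h3 : ((‖α‖ ^ 2 - 1 : ℝ) : ℂ) = α * conj α - 1 := by
        rw [Complex.mul_conj, Complex.normSq_eq_norm_sq]
        push_cast
        ring
      rw [h3]
      field_simp
      ring
    simp only [gMap, fMap]
    rw [h2, one_div_div]

theorem isCIFS_F : IsCIFS (famF dd 2) := by
  refine ⟨inferInstance, fun i z hz => ?_, fun i x _ y _ hxy => ?_, ⟨1 / 3, by norm_num,
    fun i x _ y _ => ?_⟩, ?_, ?_⟩
  · rw [mem_X] at hz ⊢
    exact fMap_bound i le_rfl hz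
  · have h1 := fMap_lip i x y
    rw [hxy, sub_self, norm_zero] at h1
    have h2 := A_pos i
    have h3 : 0 < 1 / (‖param dd 2 i‖ ^ 2 - 1) := by
      apply one_div_pos.2
      linarith
    rcases mul_eq_zero.1 h1.symm with h4 | h4
    · exact absurd h4 h3.ne'
    · exact sub_eq_zero.1 (norm_eq_zero.1 h4)
  · rw [fMap_lip]
    refine mul_le_mul_of_nonneg_right ?_ (norm_nonneg _)
    exact one_div_le_one_div_of_le (by norm_num) (A_pos i).le
  · intro i j hij
    rw [Set.disjoint_left]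
    rintro _ ⟨x, hx, rfl⟩ ⟨y, hy, hxy⟩
    have h1 : interior X = Metric.ball 0 1 := interior_closedBall _ one_ne_zero
    rw [h1, mem_ball_zero_iff] at hx hy
    obtain ⟨x', hx', h2⟩ := f_image i hx
    obtain ⟨y', hy', h3⟩ := f_image j hy
    unfold famF at hxy
    rw [← h2, ← h3] at hxy
    simp only [gMap, one_div] at hxy
    have h4 := inv_injective hxy
    have h5 : param dd 2 i - param dd 2 j = y' - x' := by linear_combination -h4
    have h6 := param_sep i j hij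
    rw [h5] at h6
    linarith [norm_sub_le y' x']
  · refine ⟨Metric.ball 0 2, Metric.isOpen_ball, ?_, ?_, famF dd 2,
      fun i => Set.eqOn_refl _ _, ?_, ?_, ?_, ?_, ⟨1, one_pos, fun i => ⟨0, fun x _ y _ => ?_⟩⟩,
      1, le_rfl, fun w x _ y _ => ?_⟩
    · exact (convex_ball (0 : ℂ) 2).isConnected ⟨0, Metric.mem_ball_self (by norm_num)⟩
    · intro z hz
      rw [mem_X] at hz
      rw [mem_ball_zero_iff]
      linarith
    · intro i z hz
      rw [mem_ball_zero_iff] at hz ⊢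
      have h1 : ‖fMap (param dd 2 i) z‖ ≤ max 1 ‖z‖ := fMap_bound i (le_max_left _ _) (le_max_right _ _)
      exact h1.trans_lt (max_lt (by norm_num) hz)
    · intro i z _
      exact (fMap_deriv i z).differentiableAt.differentiableWithinAt
    · intro i x _ y _ hxy
      have h1 := fMap_lip i x y
      rw [hxy, sub_self, norm_zero] at h1
      have h2 := A_pos i
      have h3 : 0 < 1 / (‖param dd 2 i‖ ^ 2 - 1) := by
        apply one_div_pos.2
        linarith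
      rcases mul_eq_zero.1 h1.symm with h4 | h4
      · exact absurd h4 h3.ne'
      · exact sub_eq_zero.1 (norm_eq_zero.1 h4)
    · intro i z _
      rw [(fMap_deriv i z).deriv]
      refine one_div_ne_zero ?_
      rw [Complex.ofReal_ne_zero]
      linarith [A_pos i]
    · rw [(fMap_deriv i x).deriv, (fMap_deriv i y).deriv, sub_self, norm_zero, zero_mul]
    · obtain ⟨c, hc⟩ := word_deriv_F w
      rw [(hc x).deriv, (hc y).deriv, one_mul]

theorem F_rpow_le (i : ℕ × Fin 2) : (1 / (‖param dd 2 i‖ ^ 2 - 1)) ^ (7 / 11 : ℝ) ≤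
    4971 / 10000 * (1 / 10 ^ 5) ^ i.1 := by
  have h1 : 1 / (‖param dd 2 i‖ ^ 2 - 1) ≤ 1 / 3 * (1 / 10 ^ 8) ^ i.1 := by
    rw [norm_param]
    have h2 : (3 : ℝ) * (10 ^ 8) ^ i.1 ≤ dd i.1 ^ 2 - 1 := by
      unfold dd
      have h3 : (1 : ℝ) ≤ (10 ^ 8) ^ i.1 := one_le_pow₀ (by norm_num)
      have h4 : ((2 + 1 / 10 ^ 8 : ℝ) * 10 ^ (4 * i.1)) ^ 2 =
          (2 + 1 / 10 ^ 8) ^ 2 * (10 ^ 8) ^ i.1 := by
        rw [mul_pow, ← pow_mul, ← pow_mul]
        congr 2
        ring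
      rw [h4]
      have h5 : (4 : ℝ) ≤ (2 + 1 / 10 ^ 8) ^ 2 := by norm_num
      obtain ⟨y, hy⟩ : ∃ y : ℝ, y = (10 ^ 8) ^ i.1 := ⟨_, rfl⟩
      rw [← hy] at h3 ⊢
      have h6 := mul_le_mul_of_nonneg_right h5 (show 0 ≤ y by linarith)
      linarith
    rw [one_div_pow, one_div_mul_one_div]
    exact one_div_le_one_div_of_le (by positivity) h2
  refine (Real.rpow_le_rpow (by
    apply one_div_nonneg.2
    linarith [A_pos i]) h1 (by norm_num)).trans ?_
  rw [Real.mul_rpow (by norm_num) (by positivity)]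
  have h2 : ((1 : ℝ) / 3) ^ (7 / 11 : ℝ) ≤ 4971 / 10000 := by
    have h3 : (((1 : ℝ) / 3) ^ (7 / 11 : ℝ)) ^ 11 ≤ (4971 / 10000) ^ 11 := by
      rw [← Real.rpow_natCast, ← Real.rpow_mul (by norm_num)]
      norm_num
    exact le_of_pow_le_pow_left₀ (by norm_num) (by norm_num) h3
  have h3 : (((1 : ℝ) / 10 ^ 8) ^ i.1) ^ (7 / 11 : ℝ) ≤ (1 / 10 ^ 5) ^ i.1 := by
    have h4 : (((1 : ℝ) / 10 ^ 8) ^ i.1) ^ (7 / 11 : ℝ) = (((1 : ℝ) / 10 ^ 8) ^ (7 / 11 : ℝ)) ^ i.1 :=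
      pow_rpow_comm (by positivity) _ _
    rw [h4]
    refine pow_le_pow_left₀ (by positivity) ?_ _
    have h5 : (((1 : ℝ) / 10 ^ 8) ^ (7 / 11 : ℝ)) ^ 11 ≤ (1 / 10 ^ 5) ^ 11 := by
      rw [← Real.rpow_natCast, ← Real.rpow_mul (by norm_num)]
      norm_num
    exact le_of_pow_le_pow_left₀ (by norm_num) (by norm_num) h5
  exact mul_le_mul h2 h3 (by positivity) (by norm_num)

theorem dimH_F : dimH (limitSet (famF dd 2)) ≤ ENNReal.ofReal (7 / 11) := by
  refine dimH_limitSet_le (r := fun i => 1 / (‖param dd 2 i‖ ^ 2 - 1)) (ρ := 1 / 3)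
    isCIFS_F.maps (fun i => ?_) (by norm_num) (by norm_num) (fun i => ?_) (fun i x _ y _ => ?_)
    (by norm_num) ?_
  · apply one_div_nonneg.2
    linarith [A_pos i]
  · exact one_div_le_one_div_of_le (by norm_num) (A_pos i).le
  · exact (fMap_lip i x y).le
  · refine (sum_geom (C := 4971 / 10000) (q := 1 / 10 ^ 5) (by norm_num) (by norm_num) (by norm_num)
      F_rpow_le).trans ?_
    rw [ENNReal.ofReal_le_one]
    norm_num

end Pool.Agent.Helper65K9.IFS
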