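import Mathlib

/-!
A lower bound for the Hausdorff dimension of limit sets of finite iterated function systems on an
interval.
-/

set_option autoImplicit false

namespace Pool.Agent.Helper65K9.IFS
open MeasureTheory Set Filter
open scoped ENNReal NNReal Topology

/-- a finite system on the interval `[A, B]` -/
structure Sys (n : ℕ) where
  ψ : Fin n → ℝ → ℝ
  A : ℝ
  B : ℝ
  κ : ℝ
  Δ : ℝ
  t : ℝ
  c : Fin n → ℝ
  p : Fin n → ℝ
  hAB : A ≤ B
  maps : ∀ i, ∀ x ∈ Icc A B, ψ i x ∈ Icc A B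
  meas : ∀ i, Measurable (ψ i)
  upper : ∀ i, ∀ x ∈ Icc A B, ∀ y ∈ Icc A B, |ψ i x - ψ i y| ≤ κ * |x - y|
  lower : ∀ i, ∀ x ∈ Icc A B, ∀ y ∈ Icc A B, c i * |x - y| ≤ |ψ i x - ψ i y|
  sep : ∀ i j, i ≠ j → ∀ x ∈ Icc A B, ∀ y ∈ Icc A B, Δ ≤ |ψ i x - ψ j y|
  κ_nonneg : 0 ≤ κ
  κ_lt : κ < 1
  Δ_pos : 0 < Δ
  t_pos : 0 < t
  c_pos : ∀ i, 0 < c i
  c_le : ∀ i, c i ≤ κ
  p_nonneg : ∀ i, 0 ≤ p i
  p_sum : ∑ i, p i = 1
  p_le : ∀ i, p i ≤ c i ^ t

variable {n : ℕ} (S : Sys n)

/-- the shift -/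
def shift (ω : ℕ → Fin n) : ℕ → Fin n := fun k => ω (k + 1)

theorem measurable_shift : Measurable (shift (n := n)) :=
  measurable_pi_lambda _ fun k => measurable_pi_apply (k + 1)

/-- approximations of the coding map -/
def Sys.pin : ℕ → (ℕ → Fin n) → ℝ
  | 0, _ => S.A
  | N + 1, ω => S.ψ (ω 0) (Sys.pin N (shift ω))

theorem Sys.pin_mem (N : ℕ) (ω : ℕ → Fin n) : S.pin N ω ∈ Icc S.A S.B := by
  induction N generalizing ω with
  | zero => exact ⟨le_rfl, S.hAB⟩
  | succ N ih => exact S.maps _ _ (ih _)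

theorem Sys.pin_step (N : ℕ) (ω : ℕ → Fin n) :
    |S.pin N ω - S.pin (N + 1) ω| ≤ (S.B - S.A) * S.κ ^ N := by
  induction N generalizing ω with
  | zero =>
    have h1 := S.pin_mem 0 ω
    have h2 := S.pin_mem 1 ω
    rw [pow_zero, mul_one, zero_add, abs_le]
    constructor <;> linarith [h1.1, h1.2, h2.1, h2.2]
  | succ N ih =>
    have h1 : |S.pin (N + 1) ω - S.pin (N + 1 + 1) ω| ≤
        S.κ * |S.pin N (shift ω) - S.pin (N + 1) (shift ω)| :=
      S.upper _ _ (S.pin_mem _ _) _ (S.pin_mem _ _)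
    refine h1.trans ?_
    have h2 := mul_le_mul_of_nonneg_left (ih (shift ω)) S.κ_nonneg
    rw [pow_succ]
    linarith

theorem Sys.exists_lim (ω : ℕ → Fin n) : ∃ x, Tendsto (fun N => S.pin N ω) atTop (𝓝 x) := by
  have h : CauchySeq fun N => S.pin N ω :=
    cauchySeq_of_le_geometric S.κ (S.B - S.A) S.κ_lt fun N => S.pin_step N ω
  exact cauchySeq_tendsto_of_complete h

/-- the coding map -/
noncomputable def Sys.cod (ω : ℕ → Fin n) : ℝ := (S.exists_lim ω).choose

theorem Sys.tendsto_cod (ω : ℕ → Fin n) : Tendsto (fun N => S.pin N ω) atTop (𝓝 (S.cod ω)) :=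
  (S.exists_lim ω).choose_spec

theorem Sys.cod_mem (ω : ℕ → Fin n) : S.cod ω ∈ Icc S.A S.B :=
  isClosed_Icc.mem_of_tendsto (S.tendsto_cod ω) (Eventually.of_forall fun N => S.pin_mem N ω)

theorem Sys.cod_shift (ω : ℕ → Fin n) : S.cod ω = S.ψ (ω 0) (S.cod (shift ω)) := by
  have h1 := (tendsto_add_atTop_iff_nat 1).2 (S.tendsto_cod ω)
  have h2 : Tendsto (fun N => S.pin (N + 1) ω) atTop (𝓝 (S.ψ (ω 0) (S.cod (shift ω)))) := by
    rw [tendsto_iff_dist_tendsto_zero]
    have h3 := (tendsto_iff_dist_tendsto_zero.1 (S.tendsto_cod (shift ω))).const_mul S.κ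
    rw [mul_zero] at h3
    refine squeeze_zero (fun _ => dist_nonneg) (fun N => ?_) h3
    exact S.upper _ _ (S.pin_mem _ _) _ (S.cod_mem _)
  exact tendsto_nhds_unique h1 h2

theorem Sys.measurable_pin (N : ℕ) : Measurable (S.pin N) := by
  induction N with
  | zero => exact measurable_const
  | succ N ih =>
    have h1 : Measurable fun q : Fin n × ℝ => S.ψ q.1 q.2 :=
      measurable_from_prod_countable_right fun i => S.meas i
    exact h1.comp ((measurable_pi_apply 0).prodMk (ih.comp measurable_shift))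

theorem Sys.measurable_cod : Measurable S.cod :=
  measurable_of_tendsto_metrizable (fun N => S.measurable_pin N)
    (tendsto_pi_nhds.2 fun ω => S.tendsto_cod ω)

theorem Sys.separated (N : ℕ) (ω ω' : ℕ → Fin n) (h : ∀ i < N, ω i = ω' i) (hN : ω N ≠ ω' N) :
    (∏ i ∈ Finset.range N, S.c (ω i)) * S.Δ ≤ |S.cod ω - S.cod ω'| := by
  induction N generalizing ω ω' with
  | zero =>
    rw [Finset.prod_range_zero, one_mul, S.cod_shift ω, S.cod_shift ω']
    exact S.sep _ _ hN _ (S.cod_mem _) _ (S.cod_mem _)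
  | succ N ih =>
    have h1 := ih (shift ω) (shift ω') (fun i hi => h (i + 1) (by omega)) hN
    have h2 := S.lower (ω 0) _ (S.cod_mem (shift ω)) _ (S.cod_mem (shift ω'))
    rw [S.cod_shift ω, S.cod_shift ω', ← h 0 (by omega)]
    refine le_trans ?_ h2
    rw [Finset.prod_range_succ']
    have h3 := mul_le_mul_of_nonneg_left h1 (S.c_pos (ω 0)).le
    have h4 : (∏ k ∈ Finset.range N, S.c (ω (k + 1))) * S.c (ω 0) * S.Δ =
        S.c (ω 0) * ((∏ i ∈ Finset.range N, S.c (shift ω i)) * S.Δ) := by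
      unfold shift; ring
    rw [h4]
    exact h3

/-- the weights as a measure -/
noncomputable def Sys.nu : Measure (Fin n) := ∑ i, ENNReal.ofReal (S.p i) • Measure.dirac i

theorem Sys.nu_singleton (k : Fin n) : S.nu {k} = ENNReal.ofReal (S.p k) := by
  classical
  simp only [Sys.nu, Measure.coe_finsetSum, Measure.coe_smul, Finset.sum_apply, Pi.smul_apply,
    smul_eq_mul]
  rw [Finset.sum_eq_single k]
  · simp
  · intro b _ hb
    simp [hb]
  · simp

instance : IsProbabilityMeasure S.nu := by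
  constructor
  simp only [Sys.nu, Measure.coe_finsetSum, Measure.coe_smul, Finset.sum_apply, Pi.smul_apply,
    smul_eq_mul, measure_univ, mul_one]
  rw [← ENNReal.ofReal_sum_of_nonneg fun i _ => S.p_nonneg i, S.p_sum, ENNReal.ofReal_one]

/-- the product measure -/
noncomputable def Sys.mu : Measure (ℕ → Fin n) := Measure.infinitePi fun _ => S.nu

instance : IsProbabilityMeasure S.mu := by unfold Sys.mu; infer_instance

theorem Sys.mu_cyl (N : ℕ) (ω : ℕ → Fin n) :
    S.mu {ω' | ∀ i < N, ω' i = ω i} = ∏ i ∈ Finset.range N, ENNReal.ofReal (S.p (ω i)) := by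
  have h1 : {ω' : ℕ → Fin n | ∀ i < N, ω' i = ω i} =
      Set.pi (Finset.range N : Set ℕ) fun i => {ω i} := by
    ext ω'
    simp
  rw [h1, Sys.mu, Measure.infinitePi_pi _ fun i _ => MeasurableSet.singleton _]
  exact Finset.prod_congr rfl fun i _ => S.nu_singleton _

theorem Sys.mu_cyl_le (N : ℕ) (ω : ℕ → Fin n) :
    S.mu {ω' | ∀ i < N, ω' i = ω i} ≤
      ENNReal.ofReal (∏ i ∈ Finset.range N, S.c (ω i)) ^ S.t := by
  rw [S.mu_cyl, ← ENNReal.ofReal_prod_of_nonneg fun i _ => S.p_nonneg _,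
    ENNReal.ofReal_rpow_of_nonneg (Finset.prod_nonneg fun i _ => (S.c_pos _).le) S.t_pos.le,
    ← Real.finsetProd_rpow _ _ fun i _ => (S.c_pos _).le]
  refine ENNReal.ofReal_le_ofReal (Finset.prod_le_prod (fun i _ => S.p_nonneg _) fun i _ => ?_)
  exact S.p_le _

theorem Sys.mu_singleton (ω : ℕ → Fin n) : S.mu {ω} = 0 := by
  have h1 : ∀ N : ℕ, S.mu {ω} ≤ ENNReal.ofReal ((S.κ ^ S.t) ^ N) := by
    intro N
    refine (measure_mono (t := {ω' | ∀ i < N, ω' i = ω i}) (by
      rintro _ rfl i _; rfl)).trans ((S.mu_cyl_le N ω).trans ?_)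
    rw [ENNReal.ofReal_rpow_of_nonneg (Finset.prod_nonneg fun i _ => (S.c_pos _).le) S.t_pos.le]
    refine ENNReal.ofReal_le_ofReal ?_
    rw [← Real.rpow_natCast, ← Real.rpow_mul S.κ_nonneg, mul_comm, Real.rpow_mul S.κ_nonneg,
      Real.rpow_natCast]
    refine Real.rpow_le_rpow (Finset.prod_nonneg fun i _ => (S.c_pos _).le) ?_ S.t_pos.le
    refine (Finset.prod_le_prod (fun i _ => (S.c_pos _).le) fun i _ => S.c_le _).trans ?_
    simp
  have h2 : Tendsto (fun N : ℕ => ENNReal.ofReal ((S.κ ^ S.t) ^ N)) atTop (𝓝 0) := by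
    have h3 : Tendsto (fun N : ℕ => (S.κ ^ S.t) ^ N) atTop (𝓝 0) :=
      tendsto_pow_atTop_nhds_zero_of_lt_one (Real.rpow_nonneg S.κ_nonneg _)
        (Real.rpow_lt_one S.κ_nonneg S.κ_lt S.t_pos)
    have h4 := ENNReal.tendsto_ofReal h3
    rwa [ENNReal.ofReal_zero] at h4
  exact le_antisymm (ge_of_tendsto' h2 h1) bot_le

/-- mass distribution -/
theorem Sys.mass (s : Set ℝ) :
    (ENNReal.ofReal S.Δ ^ S.t) * S.mu.map S.cod s ≤ Metric.ediam s ^ S.t := by
  have h0 : S.mu.map S.cod s ≤ S.mu (S.cod ⁻¹' closure s) := by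
    refine (measure_mono subset_closure).trans ?_
    rw [Measure.map_apply S.measurable_cod isClosed_closure.measurableSet]
  rw [← Metric.ediam_closure]
  refine (mul_le_mul_right h0 _).trans ?_
  obtain ⟨E, hE⟩ : ∃ E, E = S.cod ⁻¹' closure s := ⟨_, rfl⟩
  rw [← hE]
  by_cases hsub : E.Subsingleton
  · have h1 : S.mu E = 0 := by
      rcases hsub.eq_empty_or_singleton with h | ⟨ω, h⟩
      · rw [h, measure_empty]
      · rw [h, S.mu_singleton]
    rw [h1, mul_zero]
    exact bot_le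
  · classical
    have hP : ∃ N, ∃ ω ∈ E, ∃ ω' ∈ E, (∀ i < N, ω i = ω' i) ∧ ω N ≠ ω' N := by
      rw [Set.not_subsingleton_iff] at hsub
      obtain ⟨ω, hω, ω', hω', hne⟩ := hsub
      have h1 : ∃ i, ω i ≠ ω' i := Function.ne_iff.1 hne
      refine ⟨Nat.find h1, ω, hω, ω', hω', fun i hi => ?_, Nat.find_spec h1⟩
      have := Nat.find_min h1 hi
      push Not at this
      exact this
    obtain ⟨ω, hω, ω', hω', h1, h2⟩ := Nat.find_spec hP
    have hmin := fun i => Nat.find_min hP (m := i)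
    obtain ⟨N, hN⟩ : ∃ N, N = Nat.find hP := ⟨_, rfl⟩
    rw [← hN] at h1 h2
    have hcyl : E ⊆ {η | ∀ i < N, η i = ω i} := by
      intro η hη i hi
      by_contra hcon
      have h3 : ∃ i, η i ≠ ω i := ⟨i, hcon⟩
      have h4 : Nat.find h3 ≤ i := Nat.find_min' h3 hcon
      refine hmin (Nat.find h3) (by omega) ⟨η, hη, ω, hω, fun j hj => ?_, Nat.find_spec h3⟩
      have := Nat.find_min h3 hj
      push Not at this
      exact this
    have h3 := S.separated N ω ω' h1 h2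
    have h4 : ENNReal.ofReal ((∏ i ∈ Finset.range N, S.c (ω i)) * S.Δ) ≤
        Metric.ediam (closure s) := by
      refine (ENNReal.ofReal_le_ofReal h3).trans ?_
      rw [hE] at hω hω'
      have := Metric.edist_le_ediam_of_mem (s := closure s) hω hω'
      rwa [edist_dist, Real.dist_eq] at this
    have h5 := (measure_mono hcyl).trans (S.mu_cyl_le N ω)
    refine (mul_le_mul_right h5 _).trans ?_
    rw [← ENNReal.mul_rpow_of_nonneg _ _ S.t_pos.le, mul_comm, ← ENNReal.ofReal_mul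
      (Finset.prod_nonneg fun i _ => (S.c_pos _).le)]
    exact ENNReal.rpow_le_rpow h4 S.t_pos.le

theorem Sys.le_dimH : ENNReal.ofReal S.t ≤ dimH (range S.cod) := by
  have h1 : (ENNReal.ofReal S.Δ ^ S.t) • S.mu.map S.cod ≤ μH[S.t] := by
    refine Measure.le_hausdorffMeasure S.t _ 1 one_pos fun s _ => ?_
    rw [Measure.smul_apply, smul_eq_mul]
    exact S.mass s
  have h2 : ENNReal.ofReal S.Δ ^ S.t ≤ μH[S.t] (range S.cod) := by
    refine le_trans ?_ (h1 (range S.cod))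
    rw [Measure.smul_apply, smul_eq_mul]
    have h3 : 1 ≤ S.mu.map S.cod (range S.cod) := by
      refine le_trans ?_ (Measure.le_map_apply S.measurable_cod.aemeasurable _)
      rw [preimage_range, measure_univ]
    calc ENNReal.ofReal S.Δ ^ S.t = ENNReal.ofReal S.Δ ^ S.t * 1 := (mul_one _).symm
      _ ≤ _ := mul_le_mul_right h3 _
  have h3 : μH[S.t] (range S.cod) ≠ 0 := by
    intro h
    rw [h] at h2
    have h4 : ENNReal.ofReal S.Δ ^ S.t = 0 := le_antisymm h2 bot_le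
    rw [ENNReal.rpow_eq_zero_iff_of_pos S.t_pos, ENNReal.ofReal_eq_zero] at h4
    linarith [S.Δ_pos]
  have h5 : ((Real.toNNReal S.t : ℝ≥0) : ℝ) = S.t := Real.coe_toNNReal _ S.t_pos.le
  rw [← h5] at h3
  exact le_dimH_of_hausdorffMeasure_ne_zero h3

end Pool.Agent.Helper65K9.IFS
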