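import Pool.Agent.Helper65K9.IFS.Fam
import Pool.Agent.Helper65K9.IFS.Lower

/-!
The lower bound for the dimension of the limit set of the family `G`.
-/

set_option autoImplicit false

namespace Pool.Agent.Helper65K9.IFS
open Set Filter
open scoped ENNReal NNReal Topology ComplexConjugate

/-- `d_1` -/
noncomputable def d1 : ℝ := 2 + 1 / 10 ^ 8

theorem d1_gt : 2 < d1 := by unfold d1; norm_num
theorem d1_le : d1 ≤ 2 + 1 / 10 ^ 8 := le_rfl
theorem d1_lt : d1 < 3 := by unfold d1; norm_num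

/-- `a(u) = 1 / (d + u)` -/
noncomputable def fa (u : ℝ) : ℝ := 1 / (d1 + u)

/-- `b(u) = 1 / (d - u)` -/
noncomputable def fb (u : ℝ) : ℝ := 1 / (d1 - u)

theorem fa_mem {u : ℝ} (hu : u ∈ Icc (0 : ℝ) 1) : fa u ∈ Icc (1 / (d1 + 1)) (1 / d1) := by
  have h1 := d1_gt
  obtain ⟨h2, h3⟩ := hu
  exact ⟨one_div_le_one_div_of_le (by linarith) (by linarith),
    one_div_le_one_div_of_le (by linarith) (by linarith)⟩

theorem fb_mem {u : ℝ} (hu : u ∈ Icc (0 : ℝ) 1) : fb u ∈ Icc (1 / d1) 1 := by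
  have h1 := d1_gt
  obtain ⟨h2, h3⟩ := hu
  refine ⟨one_div_le_one_div_of_le (by linarith) (by linarith), ?_⟩
  unfold fb
  rw [div_le_one (by linarith)]
  linarith

theorem Icc_sub {u : ℝ} (hu : u ∈ Icc (1 / (d1 + 1)) (1 / d1)) : u ∈ Icc (0 : ℝ) 1 := by
  have h1 := d1_gt
  obtain ⟨h2, h3⟩ := hu
  have h4 : 0 < 1 / (d1 + 1) := by
    apply one_div_pos.2
    linarith
  have h5 : 1 / d1 ≤ 1 := by
    rw [div_le_one (by linarith)]
    linarith
  exact ⟨by linarith, by linarith⟩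

theorem fb_mem' {u : ℝ} (hu : u ∈ Icc (0 : ℝ) 1) : fb u ∈ Icc (0 : ℝ) 1 := by
  have h1 := d1_gt
  obtain ⟨h2, h3⟩ := fb_mem hu
  have h4 : 0 < 1 / d1 := by
    apply one_div_pos.2
    linarith
  exact ⟨by linarith, h3⟩

theorem iter_mem (k : ℕ) {u : ℝ} (hu : u ∈ Icc (0 : ℝ) 1) : fb^[k] u ∈ Icc (0 : ℝ) 1 := by
  induction k with
  | zero => exact hu
  | succ k ih =>
    rw [Function.iterate_succ_apply']
    exact fb_mem' ih

/-- numerator and denominator of `b^k` -/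
noncomputable def nb : ℕ → ℝ → ℝ × ℝ
  | 0, u => (u, 1)
  | k + 1, u => ((nb k u).2, d1 * (nb k u).2 - (nb k u).1)

theorem nb_prop (k : ℕ) {u : ℝ} (hu : u ∈ Icc (0 : ℝ) 1) :
    0 ≤ (nb k u).1 ∧ (nb k u).1 ≤ (nb k u).2 ∧ 1 ≤ (nb k u).2 ∧
      fb^[k] u = (nb k u).1 / (nb k u).2 := by
  induction k with
  | zero => exact ⟨hu.1, hu.2, le_rfl, by simp [nb]⟩
  | succ k ih =>
    obtain ⟨h1, h2, h3, h4⟩ := ih
    have h5 := d1_gt
    have h6 : (nb k u).2 ≤ d1 * (nb k u).2 - (nb k u).1 := by nlinarith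
    refine ⟨by simp only [nb]; linarith, by simp only [nb]; exact h6, by simp only [nb]; linarith, ?_⟩
    rw [Function.iterate_succ_apply', h4]
    simp only [nb, fb]
    have h7 : 0 < (nb k u).2 := by linarith
    have h8 : d1 - (nb k u).1 / (nb k u).2 = (d1 * (nb k u).2 - (nb k u).1) / (nb k u).2 := by
      field_simp
    rw [h8, one_div_div]

/-- the denominator of `a b^k` -/
noncomputable def yb (k : ℕ) (u : ℝ) : ℝ := d1 * (nb k u).2 + (nb k u).1

theorem yb_ge (k : ℕ) {u : ℝ} (hu : u ∈ Icc (0 : ℝ) 1) : 2 ≤ yb k u := by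
  obtain ⟨h1, h2, h3, -⟩ := nb_prop k hu
  have h5 := d1_gt
  unfold yb
  nlinarith

theorem iter_sub (k : ℕ) {x y : ℝ} (hx : x ∈ Icc (0 : ℝ) 1) (hy : y ∈ Icc (0 : ℝ) 1) :
    fb^[k] x - fb^[k] y = (x - y) / ((nb k x).2 * (nb k y).2) := by
  induction k with
  | zero => simp [nb]
  | succ k ih =>
    obtain ⟨h1, h2, h3, h4⟩ := nb_prop k hx
    obtain ⟨h1', h2', h3', h4'⟩ := nb_prop k hy
    have h5 := d1_gt
    rw [Function.iterate_succ_apply', Function.iterate_succ_apply']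
    have hx1 := (iter_mem k hx).2
    have hy1 := (iter_mem k hy).2
    have h6 : fb (fb^[k] x) - fb (fb^[k] y) =
        (fb^[k] x - fb^[k] y) / ((d1 - fb^[k] x) * (d1 - fb^[k] y)) := by
      have h7 : d1 - fb^[k] x ≠ 0 := by linarith
      have h8 : d1 - fb^[k] y ≠ 0 := by linarith
      simp only [fb] at *
      field_simp
      ring
    have h9 : d1 - fb^[k] x = (nb (k+1) x).2 / (nb k x).2 := by
      rw [h4]
      simp only [nb]
      have : 0 < (nb k x).2 := by linarith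
      field_simp
    have h10 : d1 - fb^[k] y = (nb (k+1) y).2 / (nb k y).2 := by
      rw [h4']
      simp only [nb]
      have : 0 < (nb k y).2 := by linarith
      field_simp
    have h11 := (nb_prop (k+1) hx).2.2.1
    have h12 := (nb_prop (k+1) hy).2.2.1
    rw [h6, ih, h9, h10]
    have : 0 < (nb k x).2 := by linarith
    have : 0 < (nb k y).2 := by linarith
    have : 0 < (nb (k+1) x).2 := by linarith
    have : 0 < (nb (k+1) y).2 := by linarith
    field_simp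

/-- the maps of the induced system -/
noncomputable def psi (k : ℕ) (u : ℝ) : ℝ := fa (fb^[k] u)

theorem psi_sub (k : ℕ) {x y : ℝ} (hx : x ∈ Icc (0 : ℝ) 1) (hy : y ∈ Icc (0 : ℝ) 1) :
    |psi k x - psi k y| = |x - y| / (yb k x * yb k y) := by
  obtain ⟨h1, h2, h3, h4⟩ := nb_prop k hx
  obtain ⟨h1', h2', h3', h4'⟩ := nb_prop k hy
  have h5 := d1_gt
  have hx1 := (iter_mem k hx).1
  have hy1 := (iter_mem k hy).1
  have h6 : psi k x - psi k y =
      -(fb^[k] x - fb^[k] y) / ((d1 + fb^[k] x) * (d1 + fb^[k] y)) := by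
    have h7 : d1 + fb^[k] x ≠ 0 := by linarith
    have h8 : d1 + fb^[k] y ≠ 0 := by linarith
    simp only [psi, fa]
    field_simp
    ring
  have h9 : d1 + fb^[k] x = yb k x / (nb k x).2 := by
    rw [h4]
    simp only [yb]
    have : 0 < (nb k x).2 := by linarith
    field_simp
  have h10 : d1 + fb^[k] y = yb k y / (nb k y).2 := by
    rw [h4']
    simp only [yb]
    have : 0 < (nb k y).2 := by linarith
    field_simp
  have h11 := yb_ge k hx
  have h12 := yb_ge k hy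
  rw [h6, iter_sub k hx hy, h9, h10]
  have h13 : 0 < (nb k x).2 := by linarith
  have h14 : 0 < (nb k y).2 := by linarith
  have h15 : 0 < yb k x := by linarith
  have h16 : 0 < yb k y := by linarith
  have h17 : -((x - y) / ((nb k x).2 * (nb k y).2)) / (yb k x / (nb k x).2 * (yb k y / (nb k y).2)) =
      -((x - y) / (yb k x * yb k y)) := by
    field_simp
  rw [h17, abs_neg, abs_div, abs_of_pos (mul_pos h15 h16)]

/-- growth of the denominators -/
theorem nb_growth (k : ℕ) (hk : k ≤ 34) {u : ℝ} (hu : u ∈ Icc (0 : ℝ) 1) :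
    1 - u ≤ (nb k u).2 - (nb k u).1 ∧ (nb k u).2 - (nb k u).1 ≤ 1 - u + k * (1 / 10 ^ 6) ∧
      (nb k u).2 ≤ 1 + k * (1 - u) + k ^ 2 * (1 / 10 ^ 6) := by
  induction k with
  | zero => simp [nb]
  | succ k ih =>
    obtain ⟨h1, h2, h3⟩ := ih (by omega)
    obtain ⟨-, -, h4, -⟩ := nb_prop k hu
    have hk' : (k : ℝ) ≤ 33 := by exact_mod_cast (show k ≤ 33 by omega)
    have hk0 : (0 : ℝ) ≤ k := Nat.cast_nonneg k
    have h5 : (nb k u).2 ≤ 100 := by
      have h6 : (k : ℝ) * (1 - u) ≤ 33 := by nlinarith [hu.1, hu.2]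
      have h7 : (k : ℝ) ^ 2 ≤ 33 ^ 2 := by nlinarith
      linarith
    have h6 : (nb (k+1) u).2 - (nb (k+1) u).1 =
        ((nb k u).2 - (nb k u).1) + 1 / 10 ^ 8 * (nb k u).2 := by
      simp only [nb, d1]
      ring
    have h7 : (nb (k+1) u).2 = (nb k u).2 + ((nb (k+1) u).2 - (nb (k+1) u).1) := by
      simp only [nb]
      ring
    rw [h7, h6]
    push_cast
    refine ⟨by linarith, by linarith, by nlinarith⟩

theorem yb_le {k : ℕ} (hk : k ≤ 34) {u : ℝ} (hu : u ∈ Icc (1 / (d1 + 1)) (1 / d1)) :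
    yb k u ≤ 2 * k + 251 / 100 := by
  have hu' := Icc_sub hu
  obtain ⟨h1, h2, h3⟩ := nb_growth k hk hu'
  have h4 : yb k u = (3 + 1 / 10 ^ 8) * (nb k u).2 - ((nb k u).2 - (nb k u).1) := by
    simp only [yb, d1]
    ring
  have hk' : (k : ℝ) ≤ 34 := by exact_mod_cast hk
  have hk0 : (0 : ℝ) ≤ k := Nat.cast_nonneg k
  have h5 : (nb k u).2 ≤ 100 := by
    have h6 : (k : ℝ) * (1 - u) ≤ 34 := by nlinarith [hu'.1, hu'.2]
    have h7 : (k : ℝ) ^ 2 ≤ 34 ^ 2 := by nlinarith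
    linarith
  have h6 : u ≤ 1 / 2 := by
    refine hu.2.trans ?_
    exact one_div_le_one_div_of_le (by norm_num) d1_gt.le
  have h7 : 1 / 3 - 1 / 10 ^ 8 ≤ u := by
    refine le_trans ?_ hu.1
    rw [le_div_iff₀ (by linarith [d1_gt])]
    unfold d1
    norm_num
  have h8 : (k : ℝ) ^ 2 * (1 / 10 ^ 6) ≤ 34 ^ 2 * (1 / 10 ^ 6) := by nlinarith
  -- `2 + u + 3 k (1 - u)`
  have h9 : 3 * ((k : ℝ) * (1 - u)) + (1 + u) ≤ 2 * k + 3 / 2 + 1 / 10 ^ 5 := by
    rcases Nat.eq_zero_or_pos k with h | h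
    · rw [h]; norm_num; linarith
    · have hk1 : (1 : ℝ) ≤ k := by exact_mod_cast h
      have h10 : 0 ≤ (3 * (k : ℝ) - 1) * (u - (1 / 3 - 1 / 10 ^ 8)) :=
        mul_nonneg (by linarith) (by linarith)
      nlinarith
  rw [h4]
  linarith

theorem yb_le' {k : ℕ} (hk : k ≤ 34) {u : ℝ} (hu : u ∈ Icc (0 : ℝ) 1) : yb k u ≤ 400 := by
  obtain ⟨h1, h2, h3⟩ := nb_growth k hk hu
  have h4 : yb k u = (3 + 1 / 10 ^ 8) * (nb k u).2 - ((nb k u).2 - (nb k u).1) := by
    simp only [yb, d1]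
    ring
  have hk' : (k : ℝ) ≤ 34 := by exact_mod_cast hk
  have hk0 : (0 : ℝ) ≤ k := Nat.cast_nonneg k
  have h5 : (nb k u).2 ≤ 100 := by
    have h6 : (k : ℝ) * (1 - u) ≤ 34 := by nlinarith [hu.1, hu.2]
    have h7 : (k : ℝ) ^ 2 ≤ 34 ^ 2 := by nlinarith
    linarith
  rw [h4]
  have := hu.2
  linarith

theorem fb_mono {x y : ℝ} (hy : y ≤ 1) (hxy : x ≤ y) : fb x ≤ fb y := by
  have h1 := d1_gt
  exact one_div_le_one_div_of_le (by linarith) (by linarith)

theorem iter_ge {j : ℕ} (hj : 1 ≤ j) {u : ℝ} (hu : u ∈ Icc (1 / (d1 + 1)) (1 / d1)) :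
    1 / d1 + 1 / 20 ≤ fb^[j] u := by
  obtain ⟨k, rfl⟩ : ∃ k, j = k + 1 := ⟨j - 1, by omega⟩
  rw [Function.iterate_succ_apply']
  have h1 : 1 / (d1 + 1) ≤ fb^[k] u := by
    cases k with
    | zero => exact hu.1
    | succ k =>
      rw [Function.iterate_succ_apply']
      refine le_trans ?_ (fb_mem (iter_mem k (Icc_sub hu))).1
      exact one_div_le_one_div_of_le (by linarith [d1_gt]) (by linarith)
  have h2 := fb_mono (iter_mem k (Icc_sub hu)).2 h1
  refine le_trans ?_ h2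
  unfold fb
  have h3 : 1 / 3 - 1 / 10 ^ 8 ≤ 1 / (d1 + 1) := by
    rw [le_div_iff₀ (by linarith [d1_gt])]
    unfold d1
    norm_num
  have h4 : (1 : ℝ) / (5 / 3 + 1 / 10 ^ 7) ≤ 1 / (d1 - 1 / (d1 + 1)) := by
    refine one_div_le_one_div_of_le ?_ ?_
    · have : 1 / (d1 + 1) ≤ 1 := by
        rw [div_le_one (by linarith [d1_gt])]
        linarith [d1_gt]
      linarith [d1_gt]
    · have := d1_le
      linarith
  refine le_trans ?_ h4
  have h5 : 1 / d1 ≤ 1 / 2 := one_div_le_one_div_of_le (by norm_num) d1_gt.le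
  refine (add_le_add_left h5 _).trans ?_
  norm_num

/-- the numbers -/
def RR : List ℕ := [306290, 144183, 89942, 63734, 48585, 38836, 32094, 27184, 23468, 20567, 18248,
  16356, 14787, 13467, 12343, 11375, 10535, 9799, 9149, 8573, 8057, 7595, 7178, 6799, 6455, 6141,
  5853, 5588, 5343, 5117, 4908, 4713, 4531, 4362]

theorem RR_bound : ∀ k : Fin 34, (RR.getD k 0) ^ 7 * (200 * (k : ℕ) + 251) ^ 9 ≤ 10 ^ 60 := by
  decide +kernel

theorem RR_sum : 10 ^ 6 ≤ ∑ k : Fin 34, RR.getD k 0 := by decide +kernel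

/-- the contraction constants -/
noncomputable def cc (k : Fin 34) : ℝ := 1 / (2 * (k : ℕ) + 251 / 100) ^ 2

theorem cc_pos (k : Fin 34) : 0 < cc k := by
  unfold cc
  positivity

theorem cc_rpow (k : Fin 34) : ((RR.getD k 0 : ℕ) : ℝ) / 10 ^ 6 ≤ cc k ^ (9 / 14 : ℝ) := by
  have hx : (0 : ℝ) < 2 * (k : ℕ) + 251 / 100 := by positivity
  have h1 : (((RR.getD k 0 : ℕ) : ℝ) / 10 ^ 6) ^ 7 ≤ (cc k ^ (9 / 14 : ℝ)) ^ 7 := by
    have h2 : (cc k ^ (9 / 14 : ℝ)) ^ 7 = 1 / (2 * (k : ℕ) + 251 / 100) ^ 9 := by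
      unfold cc
      obtain ⟨x, hx'⟩ : ∃ x : ℝ, x = 2 * (k : ℕ) + 251 / 100 := ⟨_, rfl⟩
      rw [← hx'] at hx ⊢
      rw [← Real.rpow_natCast _ 7, ← Real.rpow_mul (by positivity), one_div, one_div,
        Real.inv_rpow (by positivity), ← Real.rpow_natCast x 2, ← Real.rpow_mul hx.le,
        ← Real.rpow_natCast x 9]
      norm_num
    rw [h2, le_div_iff₀ (by positivity)]
    have h3 := RR_bound k
    have h4 : (((RR.getD k 0 : ℕ) : ℝ)) ^ 7 * (200 * ((k : ℕ) : ℝ) + 251) ^ 9 ≤ 10 ^ 60 := by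
      exact_mod_cast h3
    have h5 : (2 * ((k : ℕ) : ℝ) + 251 / 100) = (200 * ((k : ℕ) : ℝ) + 251) / 100 := by ring
    rw [h5, div_pow, div_pow, div_mul_div_comm, div_le_one (by positivity)]
    refine h4.trans (le_of_eq ?_)
    norm_num
  exact le_of_pow_le_pow_left₀ (by norm_num) (by
    have := cc_pos k
    positivity) h1

theorem cc_sum : 1 ≤ ∑ k : Fin 34, cc k ^ (9 / 14 : ℝ) := by
  refine le_trans ?_ (Finset.sum_le_sum fun k _ => cc_rpow k)
  rw [← Finset.sum_div, le_div_iff₀ (by positivity), one_mul]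
  exact_mod_cast RR_sum

theorem fa_measurable : Measurable fa := by
  unfold fa
  fun_prop

theorem fb_measurable : Measurable fb := by
  unfold fb
  fun_prop

theorem cc_le (k : Fin 34) {x y : ℝ} (hx : x ∈ Icc (1 / (d1 + 1)) (1 / d1))
    (hy : y ∈ Icc (1 / (d1 + 1)) (1 / d1)) : cc k * |x - y| ≤ |psi k x - psi k y| := by
  have hk : (k : ℕ) ≤ 34 := k.2.le
  rw [psi_sub k (Icc_sub hx) (Icc_sub hy)]
  have h1 := yb_le hk hx
  have h2 := yb_le hk hy
  have h3 := yb_ge k (Icc_sub hx)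
  have h4 := yb_ge k (Icc_sub hy)
  unfold cc
  rw [one_div_mul_eq_div]
  refine div_le_div_of_nonneg_left (abs_nonneg _) (mul_pos (by linarith) (by linarith)) ?_
  rw [sq]
  exact mul_le_mul h1 h2 (by linarith) (by linarith)

/-- the induced system -/
noncomputable def sysG : Sys 34 where
  ψ k := psi k
  A := 1 / (d1 + 1)
  B := 1 / d1
  κ := 1 / 4
  Δ := 1 / 10 ^ 7
  t := 9 / 14
  c := cc
  p k := cc k ^ (9 / 14 : ℝ) / ∑ j, cc j ^ (9 / 14 : ℝ)
  hAB := one_div_le_one_div_of_le (by linarith [d1_gt]) (by linarith)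
  maps k x hx := fa_mem (iter_mem k (Icc_sub hx))
  meas k := fa_measurable.comp (fb_measurable.iterate k)
  upper k x hx y hy := by
    rw [psi_sub k (Icc_sub hx) (Icc_sub hy), one_div_mul_eq_div]
    refine div_le_div_of_nonneg_left (abs_nonneg _) (by norm_num) ?_
    have h3 := yb_ge k (Icc_sub hx)
    have h4 := yb_ge k (Icc_sub hy)
    nlinarith
  lower k x hx y hy := cc_le k hx hy
  sep := by
    have main : ∀ i j : Fin 34, (i : ℕ) < j → ∀ x ∈ Icc (1 / (d1 + 1)) (1 / d1),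
        ∀ y ∈ Icc (1 / (d1 + 1)) (1 / d1), 1 / 10 ^ 7 ≤ |psi i x - psi j y| := by
      intro i j hij x hx y hy
      obtain ⟨k, hk⟩ : ∃ k, (j : ℕ) = i + k := ⟨j - i, by omega⟩
      have h1 : psi j y = psi i (fb^[k] y) := by
        unfold psi
        rw [hk, Function.iterate_add_apply]
      have h2 := iter_mem k (Icc_sub hy)
      rw [h1, psi_sub i (Icc_sub hx) h2, le_div_iff₀ (mul_pos
        (by linarith [yb_ge i (Icc_sub hx)]) (by linarith [yb_ge i h2]))]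
      have hi : (i : ℕ) ≤ 34 := i.2.le
      have h3 := yb_le' hi (Icc_sub hx)
      have h4 := yb_le' hi h2
      have h5 : yb i x * yb i (fb^[k] y) ≤ 400 * 400 :=
        mul_le_mul h3 h4 (by linarith [yb_ge i h2]) (by norm_num)
      have h6 := iter_ge (j := k) (by omega) hy
      have h7 : 1 / 20 ≤ |x - fb^[k] y| := by
        rw [abs_sub_comm]
        refine le_trans ?_ (le_abs_self _)
        linarith [hx.2]
      have h8 : (1 : ℝ) / 10 ^ 7 * (yb i x * yb i (fb^[k] y)) ≤ 1 / 10 ^ 7 * (400 * 400) :=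
        mul_le_mul_of_nonneg_left h5 (by norm_num)
      refine h8.trans (le_trans ?_ h7)
      norm_num
    intro i j hij x hx y hy
    rcases lt_or_gt_of_ne (fun h => hij (Fin.ext h) : (i : ℕ) ≠ j) with h | h
    · exact main i j h x hx y hy
    · rw [abs_sub_comm]
      exact main j i h y hy x hx
  κ_nonneg := by norm_num
  κ_lt := by norm_num
  Δ_pos := by norm_num
  t_pos := by norm_num
  c_pos := cc_pos
  c_le k := by
    unfold cc
    refine one_div_le_one_div_of_le (by norm_num) ?_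
    have : (0 : ℝ) ≤ ((k : ℕ) : ℝ) := Nat.cast_nonneg _
    nlinarith
  p_nonneg k := div_nonneg (Real.rpow_nonneg (cc_pos k).le _)
    (Finset.sum_nonneg fun j _ => Real.rpow_nonneg (cc_pos j).le _)
  p_sum := by
    rw [← Finset.sum_div]
    exact div_self (by linarith [cc_sum])
  p_le k := div_le_self (Real.rpow_nonneg (cc_pos k).le _) cc_sum

/-- sets which are contained in the union of their images are contained in the limit set -/
theorem sub_limitSet {ι : Type} {s : ι → ℂ → ℂ} {P : Set ℂ} (hP : P ⊆ X)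
    (h : ∀ x ∈ P, ∃ i, ∃ y ∈ P, x = s i y) : P ⊆ limitSet s := by
  have h' : ∀ x : P, ∃ i, ∃ y : P, (x : ℂ) = s i y := by
    intro x
    obtain ⟨i, y, hy, hxy⟩ := h x x.2
    exact ⟨i, ⟨y, hy⟩, hxy⟩
  choose l nxt hl using h'
  have key : ∀ (N : ℕ) (x : P), (x : ℂ) =
      word s (List.ofFn fun k : Fin N => l (nxt^[(k : ℕ)] x)) (nxt^[N] x : P) := by
    intro N
    induction N with
    | zero => intro x; simp [word]
    | succ N ih =>
      intro x
      rw [List.ofFn_succ]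
      simp only [word, Function.comp, Fin.val_zero, Function.iterate_zero, id_eq, Fin.val_succ,
        Function.iterate_succ_apply]
      rw [← ih (nxt x)]
      exact hl x
  intro x hx
  refine ⟨fun k => l (nxt^[k] ⟨x, hx⟩), fun N _ => ?_⟩
  exact ⟨_, hP (nxt^[N] ⟨x, hx⟩).2, (key N ⟨x, hx⟩).symm⟩

theorem cod_sub : (fun x : ℝ => (x : ℂ)) '' range sysG.cod ⊆ limitSet (famG dd 2) := by
  obtain ⟨Q, hQ⟩ : ∃ Q : Set ℝ, Q = {v | ∃ ω, ∃ j : ℕ, v = fb^[j] (sysG.cod ω)} := ⟨_, rfl⟩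
  have hcod : ∀ ω, sysG.cod ω ∈ Icc (1 / (d1 + 1)) (1 / d1) := fun ω => sysG.cod_mem ω
  have hQ1 : ∀ v ∈ Q, v ∈ Icc (0 : ℝ) 1 := by
    rw [hQ]
    rintro v ⟨ω, j, rfl⟩
    exact iter_mem j (Icc_sub (hcod ω))
  have hQ2 : ∀ v ∈ Q, ∃ v' ∈ Q, v = fa v' ∨ v = fb v' := by
    rw [hQ]
    rintro v ⟨ω, j, rfl⟩
    cases j with
    | zero =>
      refine ⟨fb^[(ω 0 : Fin 34)] (sysG.cod (shift ω)), ⟨_, _, rfl⟩, Or.inl ?_⟩
      exact sysG.cod_shift ω
    | succ j =>
      refine ⟨fb^[j] (sysG.cod ω), ⟨_, _, rfl⟩, Or.inr ?_⟩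
      rw [Function.iterate_succ_apply']
  obtain ⟨P, hP⟩ : ∃ P : Set ℂ, P = {x | ∃ v ∈ Q, x = (v : ℂ) ∨ x = -(v : ℂ)} := ⟨_, rfl⟩
  have hPX : P ⊆ X := by
    rw [hP]
    rintro x ⟨v, hv, hx⟩
    have h1 := hQ1 v hv
    have h2 : ‖(v : ℂ)‖ ≤ 1 := by
      rw [Complex.norm_real, Real.norm_eq_abs, abs_of_nonneg h1.1]
      exact h1.2
    rw [mem_X]
    rcases hx with h | h
    · rw [h]; exact h2
    · rw [h, norm_neg]; exact h2
  have hd : ((dd 0 : ℝ) : ℂ) = (d1 : ℂ) := by rw [dd_zero]; rfl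
  have hg0 : famG dd 2 (0, 0) = gMap (d1 : ℂ) := by
    unfold famG
    rw [param_zero, hd]
  have hg1 : famG dd 2 (0, 1) = gMap (-(d1 : ℂ)) := by
    unfold famG
    rw [param_one, hd]
  have hstep : ∀ x ∈ P, ∃ i, ∃ y ∈ P, x = famG dd 2 i y := by
    rw [hP]
    rintro x ⟨v, hv, hx⟩
    obtain ⟨v', hv', hvv⟩ := hQ2 v hv
    rcases hvv with h | h <;> rcases hx with hx | hx
    · refine ⟨(0, 0), v', ⟨v', hv', Or.inl rfl⟩, ?_⟩
      rw [hg0, hx, h]
      simp only [fa, gMap]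
      push_cast
      rw [add_comm]
    · refine ⟨(0, 1), -v', ⟨v', hv', Or.inr rfl⟩, ?_⟩
      rw [hg1, hx, h]
      simp only [fa, gMap]
      push_cast
      rw [← neg_add, one_div, one_div, ← inv_neg, add_comm]
    · refine ⟨(0, 0), -v', ⟨v', hv', Or.inr rfl⟩, ?_⟩
      rw [hg0, hx, h]
      simp only [fb, gMap]
      push_cast
      congr 1
      ring
    · refine ⟨(0, 1), v', ⟨v', hv', Or.inl rfl⟩, ?_⟩
      rw [hg1, hx, h]
      simp only [fb, gMap]
      push_cast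
      rw [one_div, one_div, ← inv_neg]
      congr 1
      ring
  refine subset_trans ?_ (sub_limitSet hPX hstep)
  rintro _ ⟨_, ⟨ω, rfl⟩, rfl⟩
  rw [hP, hQ]
  exact ⟨_, ⟨ω, 0, rfl⟩, Or.inl rfl⟩

theorem dimH_G : ENNReal.ofReal (9 / 14) ≤ dimH (limitSet (famG dd 2)) := by
  have h1 := sysG.le_dimH
  have h2 : dimH ((fun x : ℝ => (x : ℂ)) '' range sysG.cod) = dimH (range sysG.cod) :=
    Complex.isometry_ofReal.dimH_image _
  have h3 := dimH_mono cod_sub
  rw [h2] at h3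
  exact h1.trans h3

theorem dimH_lt : dimH (limitSet (famF dd 2)) < dimH (limitSet (famG dd 2)) := by
  refine dimH_F.trans_lt (lt_of_lt_of_le ?_ dimH_G)
  rw [ENNReal.ofReal_lt_ofReal_iff (by norm_num)]
  norm_num

end Pool.Agent.Helper65K9.IFS
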