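import Pool.Agent.Helper65K9.IFS.Upper

/-!
Compositions of the maps `z ↦ 1 / (z + α)`.
-/

set_option autoImplicit false

namespace Pool.Agent.Helper65K9.IFS
open Set Filter
open scoped ENNReal NNReal Topology

variable {ι : Type}

/-- the assumptions on the parameters -/
structure Par (α : ι → ℂ) (d R R' : ℝ) : Prop where
  two : 2 < d
  le : ∀ i, d ≤ ‖α i‖
  R_gt : 1 < R
  R_lt : R < R'
  R'_lt : R' < d
  hR : 1 < R * (d - R)
  hR' : 1 ≤ R' * (d - R')

/-- numerator and denominator -/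
def nd (α : ι → ℂ) : List ι → ℂ → ℂ × ℂ
  | [], z => (z, 1)
  | i :: w, z => ((nd α w z).2, α i * (nd α w z).2 + (nd α w z).1)

section
variable {α : ι → ℂ} {d R R' : ℝ}

theorem norm_add_ge (h : Par α d R R') (i : ι) (z : ℂ) : d - ‖z‖ ≤ ‖z + α i‖ := by
  have h1 := h.le i
  have h2 := norm_sub_norm_le (α i) (-z)
  rw [norm_neg, sub_neg_eq_add, add_comm (α i)] at h2
  linarith

theorem gMap_bound (h : Par α d R R') (i : ι) {z : ℂ} (hz : ‖z‖ ≤ R') :
    ‖gMap (α i) z‖ ≤ R' := by
  have h1 := norm_add_ge h i z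
  have h2 := h.R'_lt
  have h3 : 0 < d - ‖z‖ := by linarith
  have h4 : 0 < R' := by linarith [h.R_gt, h.R_lt]
  rw [gMap, norm_div, norm_one, div_le_iff₀ (by linarith)]
  have h5 : R' * (d - R') ≤ R' * ‖z + α i‖ := mul_le_mul_of_nonneg_left (by linarith) h4.le
  linarith [h.hR']

theorem word_nd (h : Par α d R R') (w : List ι) {z : ℂ} (hz : ‖z‖ ≤ R') :
    (nd α w z).2 ≠ 0 ∧ word (fun i => gMap (α i)) w z = (nd α w z).1 / (nd α w z).2 ∧
      ‖word (fun i => gMap (α i)) w z‖ ≤ R' ∧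
      HasDerivAt (word (fun i => gMap (α i)) w) ((-1) ^ w.length / (nd α w z).2 ^ 2) z := by
  induction w with
  | nil =>
    refine ⟨one_ne_zero, by simp [word, nd], by simpa [word] using hz, ?_⟩
    simp only [word, nd, List.length_nil, pow_zero, one_pow, div_one]
    exact hasDerivAt_id z
  | cons i w ih =>
    obtain ⟨h1, h2, h3, h4⟩ := ih
    have h5 := norm_add_ge h i (word (fun i => gMap (α i)) w z)
    have h6 : word (fun i => gMap (α i)) w z + α i ≠ 0 := by
      rw [← norm_pos_iff]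
      linarith [h.R'_lt]
    have h7 : (nd α (i :: w) z).2 = (nd α w z).2 * (word (fun i => gMap (α i)) w z + α i) := by
      rw [h2]
      simp only [nd]
      field_simp
      ring
    refine ⟨?_, ?_, gMap_bound h i h3, ?_⟩
    · rw [h7]; exact mul_ne_zero h1 h6
    · rw [h7]
      simp only [word, nd, Function.comp, gMap]
      field_simp
    · rw [h7]
      have h8 : HasDerivAt (gMap (α i)) (-1 / (word (fun i => gMap (α i)) w z + α i) ^ 2)
          (word (fun i => gMap (α i)) w z) := by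
        have h9 : HasDerivAt (fun x : ℂ => x + α i) 1 (word (fun i => gMap (α i)) w z) :=
          (hasDerivAt_id _).add_const _
        have h10 := h9.inv h6
        refine (h10.congr_of_eventuallyEq ?_)
        refine Eventually.of_forall fun x => ?_
        simp [gMap]
      have h9 := h8.comp z h4
      refine h9.congr_deriv ?_
      rw [List.length_cons, pow_succ]
      field_simp
      ring

theorem nd_affine (w : List ι) (z : ℂ) :
    (nd α w z).1 = (nd α w 0).1 + z * ((nd α w 1).1 - (nd α w 0).1) ∧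
    (nd α w z).2 = (nd α w 0).2 + z * ((nd α w 1).2 - (nd α w 0).2) := by
  induction w with
  | nil => simp [nd]
  | cons i w ih =>
    refine ⟨ih.2, ?_⟩
    simp only [nd]
    rw [ih.1, ih.2]
    ring

theorem pole (h : Par α d R R') (w : List ι) :
    R' * ‖(nd α w 1).2 - (nd α w 0).2‖ ≤ ‖(nd α w 0).2‖ := by
  obtain ⟨q, hq⟩ : ∃ q, q = (nd α w 1).2 - (nd α w 0).2 := ⟨_, rfl⟩
  obtain ⟨p, hp⟩ : ∃ p, p = (nd α w 0).2 := ⟨_, rfl⟩
  rw [← hq, ← hp]
  by_contra hcon
  push Not at hcon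
  have hR0 : 0 < R' := by linarith [h.R_gt, h.R_lt]
  have hq0 : q ≠ 0 := by
    rintro rfl
    rw [norm_zero, mul_zero] at hcon
    linarith [norm_nonneg p]
  have hz : ‖-p / q‖ ≤ R' := by
    rw [norm_div, norm_neg, div_le_iff₀ (norm_pos_iff.2 hq0)]
    exact hcon.le
  refine (word_nd h w hz).1 ?_
  rw [(nd_affine w _).2, ← hq, ← hp]
  field_simp
  ring

theorem den_ratio (h : Par α d R R') (w : List ι) {x y : ℂ} (hx : ‖x‖ ≤ R) (hy : ‖y‖ ≤ R) :
    (R' - R) * ‖(nd α w x).2‖ ≤ (R' + R) * ‖(nd α w y).2‖ := by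
  have h1 := pole h w
  obtain ⟨q, hq⟩ : ∃ q, q = (nd α w 1).2 - (nd α w 0).2 := ⟨_, rfl⟩
  obtain ⟨p, hp⟩ : ∃ p, p = (nd α w 0).2 := ⟨_, rfl⟩
  have hR0 : 0 < R' := by linarith [h.R_gt, h.R_lt]
  have hR1 : 0 < R := by linarith [h.R_gt]
  have h2 : ‖(nd α w x).2‖ ≤ ‖p‖ + R * ‖q‖ := by
    rw [(nd_affine w x).2, ← hq, ← hp]
    refine (norm_add_le _ _).trans ?_
    rw [norm_mul]
    linarith [mul_le_mul_of_nonneg_right hx (norm_nonneg q)]
  have h3 : ‖p‖ - R * ‖q‖ ≤ ‖(nd α w y).2‖ := by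
    rw [(nd_affine w y).2, ← hq, ← hp]
    have h4 := norm_sub_norm_le p (-(y * q))
    rw [norm_neg, sub_neg_eq_add, norm_mul] at h4
    linarith [mul_le_mul_of_nonneg_right hy (norm_nonneg q)]
  rw [← hq, ← hp] at h1
  have h4 : 0 < R' - R := by linarith [h.R_lt]
  have h5 : (R' - R) * ‖(nd α w x).2‖ ≤ (R' - R) * (‖p‖ + R * ‖q‖) :=
    mul_le_mul_of_nonneg_left h2 h4.le
  have h6 : (R' + R) * (‖p‖ - R * ‖q‖) ≤ (R' + R) * ‖(nd α w y).2‖ :=
    mul_le_mul_of_nonneg_left h3 (by linarith)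
  have h7 : (R' - R) * (‖p‖ + R * ‖q‖) ≤ (R' + R) * (‖p‖ - R * ‖q‖) := by
    have h8 : 0 ≤ R * (‖p‖ - R' * ‖q‖) := mul_nonneg hR1.le (by linarith)
    nlinarith
  linarith

theorem norm_deriv (h : Par α d R R') (w : List ι) {z : ℂ} (hz : ‖z‖ ≤ R') :
    ‖deriv (word (fun i => gMap (α i)) w) z‖ = 1 / ‖(nd α w z).2‖ ^ 2 := by
  rw [(word_nd h w hz).2.2.2.deriv, norm_div, norm_pow, norm_pow, norm_neg, norm_one, one_pow]

/-- the distortion constant -/
noncomputable def dist0 (R R' : ℝ) : ℝ := ((R' + R) / (R' - R)) ^ 2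

theorem dist0_ge (h : Par α d R R') : 1 ≤ dist0 R R' := by
  unfold dist0
  have h1 := h.R_lt
  have h2 := h.R_gt
  have : 1 ≤ (R' + R) / (R' - R) := by
    rw [le_div_iff₀ (by linarith)]
    linarith
  exact one_le_pow₀ this

theorem distortion (h : Par α d R R') (w : List ι) {x y : ℂ} (hx : ‖x‖ ≤ R) (hy : ‖y‖ ≤ R) :
    ‖deriv (word (fun i => gMap (α i)) w) y‖ ≤
      dist0 R R' * ‖deriv (word (fun i => gMap (α i)) w) x‖ := by
  have hlt := h.R_lt
  have hgt := h.R_gt
  rw [norm_deriv h w (hx.trans hlt.le), norm_deriv h w (hy.trans hlt.le)]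
  have h1 := den_ratio h w hx hy
  have h2 : 0 < ‖(nd α w x).2‖ := norm_pos_iff.2 (word_nd h w (hx.trans hlt.le)).1
  have h3 : 0 < ‖(nd α w y).2‖ := norm_pos_iff.2 (word_nd h w (hy.trans hlt.le)).1
  unfold dist0
  have h4 : 0 < R' - R := by linarith
  rw [div_pow, div_mul_div_comm, mul_one, div_le_div_iff₀ (by positivity) (by positivity), one_mul,
    ← mul_pow, ← mul_pow]
  exact pow_le_pow_left₀ (by positivity) h1 2

theorem gMap_sub (h : Par α d R R') (i : ι) {x y : ℂ} (hx : ‖x‖ < d) (hy : ‖y‖ < d) :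
    gMap (α i) x - gMap (α i) y = -(x - y) / ((x + α i) * (y + α i)) := by
  have h1 : x + α i ≠ 0 := by
    rw [← norm_pos_iff]
    linarith [norm_add_ge h i x]
  have h2 : y + α i ≠ 0 := by
    rw [← norm_pos_iff]
    linarith [norm_add_ge h i y]
  simp only [gMap]
  field_simp
  ring

theorem mem_X {z : ℂ} : z ∈ X ↔ ‖z‖ ≤ 1 := by
  unfold X
  rw [mem_closedBall_zero_iff]

theorem gMap_inj (β : ℂ) : Function.Injective (gMap β) := by
  intro x y hxy
  simp only [gMap, one_div] at hxy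
  exact add_right_cancel (inv_injective hxy)

theorem gMap_maps (h : Par α d R R') (i : ι) : MapsTo (gMap (α i)) X X := by
  intro z hz
  rw [mem_X] at hz ⊢
  have h1 := norm_add_ge h i z
  have h2 := h.two
  rw [gMap, norm_div, norm_one, div_le_iff₀ (by linarith)]
  linarith

theorem gMap_lip (h : Par α d R R') (i : ι) {x y : ℂ} (hx : x ∈ X) (hy : y ∈ X) :
    ‖gMap (α i) x - gMap (α i) y‖ ≤ 1 / (d - 1) ^ 2 * ‖x - y‖ := by
  rw [mem_X] at hx hy
  have h2 := h.two
  rw [gMap_sub h i (by linarith) (by linarith), norm_div, norm_neg, norm_mul]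
  have h3 := norm_add_ge h i x
  have h4 := norm_add_ge h i y
  have h5 : (d - 1) ^ 2 ≤ ‖x + α i‖ * ‖y + α i‖ := by
    rw [sq]
    exact mul_le_mul (by linarith) (by linarith) (by linarith) (norm_nonneg _)
  have h6 : 0 < (d - 1) ^ 2 := pow_pos (by linarith) 2
  rw [one_div_mul_eq_div]
  exact div_le_div_of_nonneg_left (norm_nonneg _) h6 h5

theorem gMap_deriv (h : Par α d R R') (i : ι) {z : ℂ} (hz : ‖z‖ ≤ R') :
    HasDerivAt (gMap (α i)) (-1 / (z + α i) ^ 2) z := by
  have h1 := (word_nd h [i] hz).2.2.2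
  have h2 : word (fun i => gMap (α i)) [i] = gMap (α i) := by
    funext x
    simp [word]
  rw [h2] at h1
  refine h1.congr_deriv ?_
  simp only [nd, List.length_cons, List.length_nil, zero_add, pow_one, mul_one]
  rw [add_comm z]

theorem isCIFS_g [Countable ι] (h : Par α d R R') (hsep : ∀ i j, i ≠ j → 2 ≤ ‖α i - α j‖) :
    IsCIFS fun i => gMap (α i) := by
  have hlt := h.R_lt
  have hgt := h.R_gt
  have htwo := h.two
  refine ⟨inferInstance, fun i => gMap_maps h i, fun i => (gMap_inj _).injOn,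
    ⟨1 / (d - 1) ^ 2, ?_, fun i x hx y hy => gMap_lip h i hx hy⟩, ?_, ?_⟩
  · rw [div_lt_one (pow_pos (by linarith) 2)]
    nlinarith
  · intro i j hij
    rw [Set.disjoint_left]
    rintro _ ⟨x, hx, rfl⟩ ⟨y, hy, hxy⟩
    have h1 : interior X = Metric.ball 0 1 := interior_closedBall _ one_ne_zero
    rw [h1, mem_ball_zero_iff] at hx hy
    simp only [gMap, one_div] at hxy
    have h2 := inv_injective hxy
    have h3 : α i - α j = y - x := by linear_combination -h2
    have h4 := hsep i j hij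
    rw [h3] at h4
    linarith [norm_sub_le y x]
  · refine ⟨Metric.ball 0 R, Metric.isOpen_ball, ?_, ?_, fun i => gMap (α i),
      fun i => Set.eqOn_refl _ _, ?_, ?_, fun i => (gMap_inj _).injOn, ?_, ?_, dist0 R R',
      dist0_ge h, ?_⟩
    · exact (convex_ball (0 : ℂ) R).isConnected ⟨0, Metric.mem_ball_self (by linarith)⟩
    · intro z hz
      rw [mem_X] at hz
      rw [mem_ball_zero_iff]
      linarith
    · intro i z hz
      rw [mem_ball_zero_iff] at hz ⊢
      have h1 := norm_add_ge h i z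
      have h2 := h.R'_lt
      change ‖gMap (α i) z‖ < R
      rw [gMap, norm_div, norm_one, div_lt_iff₀ (by linarith)]
      have h3 : R * (d - R) ≤ R * ‖z + α i‖ := mul_le_mul_of_nonneg_left (by linarith) (by linarith)
      linarith [h.hR]
    · intro i z hz
      rw [mem_ball_zero_iff] at hz
      exact (gMap_deriv h i (by linarith)).differentiableAt.differentiableWithinAt
    · intro i z hz
      rw [mem_ball_zero_iff] at hz
      rw [(gMap_deriv h i (by linarith)).deriv]
      have h1 := norm_add_ge h i z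
      have h2 := h.R'_lt
      have h3 : z + α i ≠ 0 := by
        rw [← norm_pos_iff]
        linarith
      exact div_ne_zero (by norm_num) (pow_ne_zero 2 h3)
    · refine ⟨1, one_pos, fun i => ⟨(2 * R + 2 * ‖α i‖) / (d - R) ^ 4, fun x hx y hy => ?_⟩⟩
      rw [mem_ball_zero_iff] at hx hy
      rw [(gMap_deriv h i (by linarith)).deriv, (gMap_deriv h i (by linarith)).deriv,
        Real.rpow_one]
      have h1 := norm_add_ge h i x
      have h2 := norm_add_ge h i y
      have h3 := h.R'_lt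
      have hx0 : x + α i ≠ 0 := by
        rw [← norm_pos_iff]
        linarith
      have hy0 : y + α i ≠ 0 := by
        rw [← norm_pos_iff]
        linarith
      have h4 : -1 / (x + α i) ^ 2 - -1 / (y + α i) ^ 2 =
          (x - y) * (x + y + 2 * α i) / ((x + α i) ^ 2 * (y + α i) ^ 2) := by
        field_simp
        ring
      rw [h4, norm_div, norm_mul, norm_mul, norm_pow, norm_pow, div_mul_eq_mul_div, mul_comm ‖x - y‖]
      have h5 : ‖x + y + 2 * α i‖ ≤ 2 * R + 2 * ‖α i‖ := by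
        refine (norm_add_le _ _).trans ?_
        rw [norm_mul, Complex.norm_ofNat]
        linarith [norm_add_le x y]
      have h6 : (d - R) ^ 4 ≤ ‖x + α i‖ ^ 2 * ‖y + α i‖ ^ 2 := by
        have h7 : (d - R) ^ 2 ≤ ‖x + α i‖ ^ 2 := pow_le_pow_left₀ (by linarith) (by linarith) 2
        have h8 : (d - R) ^ 2 ≤ ‖y + α i‖ ^ 2 := pow_le_pow_left₀ (by linarith) (by linarith) 2
        calc (d - R) ^ 4 = (d - R) ^ 2 * (d - R) ^ 2 := by ring
          _ ≤ _ := mul_le_mul h7 h8 (by positivity) (by positivity)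
      have h7 : 0 < (d - R) ^ 4 := pow_pos (by linarith) 4
      exact div_le_div₀ (by positivity) (mul_le_mul_of_nonneg_right h5 (norm_nonneg _)) h7 h6
    · intro w x hx y hy
      rw [mem_ball_zero_iff] at hx hy
      exact distortion h w hx.le hy.le

end

end Pool.Agent.Helper65K9.IFS
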