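import Mathlib

/-!
Sums over words; existence of a zero of the pressure.
-/

set_option autoImplicit false

namespace Pool.Agent.Helper65K9.IFS
open Set Filter
open scoped ENNReal NNReal Topology

variable {ι : Type}

/-- the sum over the words of length `N` -/
noncomputable def Ws (A : List ι → ℝ≥0∞) (N : ℕ) : ℝ≥0∞ := ∑' w : Fin N → ι, A (List.ofFn w)

theorem Ws_zero (A : List ι → ℝ≥0∞) : Ws A 0 = A [] := by
  unfold Ws
  rw [tsum_eq_single (default : Fin 0 → ι) (fun b hb => absurd (Subsingleton.elim _ _) hb)]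
  simp

theorem Ws_succ (A : List ι → ℝ≥0∞) (N : ℕ) :
    Ws A (N + 1) = ∑' i, Ws (fun w => A (i :: w)) N := by
  unfold Ws
  rw [← (Fin.consEquiv fun _ : Fin (N + 1) => ι).tsum_eq, ENNReal.tsum_prod']
  refine tsum_congr fun i => tsum_congr fun w => ?_
  congr 1
  rw [List.ofFn_succ]
  simp [Fin.consEquiv]

theorem Ws_add (A : List ι → ℝ≥0∞) (N M : ℕ) :
    Ws A (N + M) = Ws (fun v => Ws (fun w => A (v ++ w)) M) N := by
  induction N generalizing A with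
  | zero => rw [Ws_zero, zero_add]; rfl
  | succ N ih =>
    rw [show N + 1 + M = (N + M) + 1 by ring, Ws_succ, Ws_succ]
    refine tsum_congr fun i => ?_
    rw [ih]
    rfl

theorem Ws_mono {A B : List ι → ℝ≥0∞} (h : ∀ w, A w ≤ B w) (N : ℕ) : Ws A N ≤ Ws B N :=
  ENNReal.tsum_le_tsum fun _ => h _

theorem Ws_mul_left (A : List ι → ℝ≥0∞) (c : ℝ≥0∞) (N : ℕ) :
    Ws (fun w => c * A w) N = c * Ws A N := ENNReal.tsum_mul_left

theorem Ws_mul_right (A : List ι → ℝ≥0∞) (c : ℝ≥0∞) (N : ℕ) :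
    Ws (fun w => A w * c) N = Ws A N * c := ENNReal.tsum_mul_right

theorem Ws_sub {A : List ι → ℝ≥0∞} (h : ∀ v w, A (v ++ w) ≤ A v * A w) (N M : ℕ) :
    Ws A (N + M) ≤ Ws A N * Ws A M := by
  rw [Ws_add, ← Ws_mul_right]
  refine Ws_mono (fun v => ?_) N
  rw [← Ws_mul_left]
  exact Ws_mono (fun w => h v w) M

theorem Ws_super {A : List ι → ℝ≥0∞} {C : ℝ≥0∞} (h : ∀ v w, A v * A w ≤ C * A (v ++ w)) (N M : ℕ) :
    Ws A N * Ws A M ≤ C * Ws A (N + M) := by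
  rw [Ws_add, ← Ws_mul_right, ← Ws_mul_left]
  refine Ws_mono (fun v => ?_) N
  rw [← Ws_mul_left, ← Ws_mul_left]
  exact Ws_mono (fun w => h v w) M

theorem Ws_pow {A : List ι → ℝ≥0∞} (h : ∀ v w, A (v ++ w) ≤ A v * A w) (h0 : A [] ≤ 1) (N k : ℕ) :
    Ws A (N * k) ≤ Ws A N ^ k := by
  induction k with
  | zero => rw [mul_zero, Ws_zero, pow_zero]; exact h0
  | succ k ih =>
    rw [Nat.mul_succ, pow_succ]
    exact (Ws_sub h _ _).trans (mul_le_mul_left ih _)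

/-- product weights -/
theorem Ws_prod (b : ι → ℝ≥0∞) (N : ℕ) :
    Ws (fun w => (w.map b).prod) N = (∑' i, b i) ^ N := by
  induction N with
  | zero => rw [Ws_zero]; simp
  | succ N ih =>
    rw [Ws_succ, pow_succ, mul_comm, ← ENNReal.tsum_mul_right]
    refine tsum_congr fun i => ?_
    rw [← ih, ← Ws_mul_left]
    simp only [List.map_cons, List.prod_cons]

/-- the weights for the exponent `t` -/
noncomputable def pw (a : List ι → ℝ) (t : ℝ) (w : List ι) : ℝ≥0∞ := ENNReal.ofReal (a w ^ t)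

section zero
variable {a : List ι → ℝ} {K : ℝ}

theorem pw_sub (ha : ∀ w, 0 < a w) (h : ∀ v w, a (v ++ w) ≤ a v * a w) {t : ℝ} (ht : 0 ≤ t)
    (v w : List ι) : pw a t (v ++ w) ≤ pw a t v * pw a t w := by
  unfold pw
  rw [← ENNReal.ofReal_mul (Real.rpow_nonneg (ha v).le _), ← Real.mul_rpow (ha v).le (ha w).le]
  exact ENNReal.ofReal_le_ofReal (Real.rpow_le_rpow (ha _).le (h v w) ht)

theorem pw_super (ha : ∀ w, 0 < a w) (hK : 0 ≤ K) (h : ∀ v w, a v * a w ≤ K * a (v ++ w)) {t : ℝ}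
    (ht : 0 ≤ t) (v w : List ι) :
    pw a t v * pw a t w ≤ ENNReal.ofReal (K ^ t) * pw a t (v ++ w) := by
  unfold pw
  rw [← ENNReal.ofReal_mul (Real.rpow_nonneg (ha v).le _), ← Real.mul_rpow (ha v).le (ha w).le,
    ← ENNReal.ofReal_mul (Real.rpow_nonneg hK _), ← Real.mul_rpow hK (ha _).le]
  exact ENNReal.ofReal_le_ofReal (Real.rpow_le_rpow (mul_nonneg (ha _).le (ha _).le) (h v w) ht)

theorem Ws_super_pow {A : List ι → ℝ≥0∞} {C : ℝ≥0∞} (hC : C ≠ 0) (hC' : C ≠ ⊤)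
    (h : ∀ v w, A v * A w ≤ C * A (v ++ w)) (N k : ℕ) :
    (Ws A N / C) ^ (k + 1) ≤ Ws A (N * (k + 1)) / C := by
  induction k with
  | zero => simp
  | succ k ih =>
    rw [pow_succ, Nat.mul_succ]
    refine (mul_le_mul_left ih _).trans ?_
    have h1 := Ws_super h (N * (k + 1)) N
    calc Ws A (N * (k + 1)) / C * (Ws A N / C) = (Ws A (N * (k + 1)) * Ws A N) / C / C := by
          rw [ENNReal.div_eq_inv_mul, ENNReal.div_eq_inv_mul, ENNReal.div_eq_inv_mul,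
            ENNReal.div_eq_inv_mul]
          ring
      _ ≤ (C * Ws A (N * (k + 1) + N)) / C / C := by gcongr
      _ = _ := by
        congr 1
        rw [mul_comm, ENNReal.mul_div_cancel_right hC hC']

/-- if some sum is smaller than one then all sums are bounded -/
theorem Ws_bounded {A : List ι → ℝ≥0∞} {C : ℝ≥0∞} (hC : 1 ≤ C) (hC' : C ≠ ⊤)
    (h0 : A [] ≤ 1) (hsub : ∀ v w, A (v ++ w) ≤ A v * A w)
    (h : ∀ v w, A v * A w ≤ C * A (v ++ w)) {N : ℕ} (hN1 : 1 ≤ N) (hN : Ws A N < 1) (M : ℕ) :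
    Ws A M ≤ C := by
  have hC0 : C ≠ 0 := (lt_of_lt_of_le one_pos hC).ne'
  by_contra hcon
  push Not at hcon
  have h1 : 1 < Ws A M / C := by
    rw [ENNReal.lt_div_iff_mul_lt (Or.inl hC0) (Or.inl hC'), one_mul]
    exact hcon
  obtain ⟨k, rfl⟩ : ∃ k, N = k + 1 := ⟨N - 1, by omega⟩
  have h2 := Ws_super_pow hC0 hC' h M k
  have h3 : 1 < (Ws A M / C) ^ (k + 1) := by
    calc (1 : ℝ≥0∞) < Ws A M / C := h1
      _ ≤ _ := le_self_pow₀ h1.le (by omega)
  have h4 : Ws A (M * (k + 1)) / C ≤ 1 := by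
    rw [ENNReal.div_le_iff hC0 hC', one_mul]
    rw [mul_comm]
    refine (Ws_pow hsub h0 (k+1) M).trans ?_
    exact (pow_le_one₀ bot_le hN.le).trans hC
  exact absurd (h3.trans_le (h2.trans h4)) (lt_irrefl _)

theorem pw_anti (ha : ∀ w, 0 < a w) (ha1 : ∀ w, a w ≤ 1) {t t' : ℝ} (h : t ≤ t') (w : List ι) :
    pw a t' w ≤ pw a t w :=
  ENNReal.ofReal_le_ofReal (Real.rpow_le_rpow_of_exponent_ge (ha w) (ha1 w) h)

theorem Ws_finite (ha : ∀ w, 0 < a w) (ha1 : ∀ w, a w ≤ 1)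
    (hsub : ∀ v w, a (v ++ w) ≤ a v * a w) (hfin : ∀ t, 0 < t → Ws (pw a t) 1 ≠ ⊤) {t : ℝ}
    (ht : 0 < t) (N : ℕ) : Ws (pw a t) N ≠ ⊤ := by
  have h1 := Ws_pow (pw_sub ha hsub ht.le) (by
    unfold pw
    rw [ENNReal.ofReal_le_one]
    exact Real.rpow_le_one (ha _).le (ha1 _) ht.le) 1 N
  rw [one_mul] at h1
  exact ne_top_of_le_ne_top (ENNReal.pow_ne_top (hfin t ht)) h1

theorem Ws_lt_one_nhds (ha : ∀ w, 0 < a w) (ha1 : ∀ w, a w ≤ 1)
    (hsub : ∀ v w, a (v ++ w) ≤ a v * a w) (hfin : ∀ t, 0 < t → Ws (pw a t) 1 ≠ ⊤) {t : ℝ}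
    (ht : 0 < t) (N : ℕ) (h : Ws (pw a t) N < 1) : ∀ᶠ s in 𝓝 t, Ws (pw a s) N < 1 := by
  obtain ⟨b, hb⟩ : ∃ b : (Fin N → ι) → ℝ, b = fun w => a (List.ofFn w) := ⟨_, rfl⟩
  have hb0 : ∀ w, 0 < b w := fun w => by rw [hb]; exact ha _
  have hb1 : ∀ w, b w ≤ 1 := fun w => by rw [hb]; exact ha1 _
  have hsum : ∀ s : ℝ, 0 < s → Summable fun w => b w ^ s := by
    intro s hs
    have h1 := Ws_finite ha ha1 hsub hfin hs N
    unfold Ws pw at h1
    have h2 := ENNReal.summable_toReal h1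
    refine h2.congr fun w => ?_
    rw [ENNReal.toReal_ofReal (Real.rpow_nonneg (ha _).le _), hb]
  have hW : ∀ s : ℝ, 0 < s → Ws (pw a s) N = ENNReal.ofReal (∑' w, b w ^ s) := by
    intro s hs
    rw [ENNReal.ofReal_tsum_of_nonneg (fun w => Real.rpow_nonneg (hb0 w).le _) (hsum s hs), hb]
    rfl
  have hcont : ContinuousOn (fun s : ℝ => ∑' w, b w ^ s) (Ici (t / 2)) := by
    refine continuousOn_tsum (u := fun w => b w ^ (t / 2)) (fun w => ?_) (hsum _ (by linarith))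
      fun w s hs => ?_
    · exact (Real.continuous_const_rpow (hb0 w).ne').continuousOn
    · rw [Real.norm_eq_abs, abs_of_nonneg (Real.rpow_nonneg (hb0 w).le _)]
      exact Real.rpow_le_rpow_of_exponent_ge (hb0 w) (hb1 w) hs
  have hat : ContinuousAt (fun s : ℝ => ∑' w, b w ^ s) t :=
    hcont.continuousAt (Ici_mem_nhds (by linarith))
  rw [hW t ht] at h
  have h1 : ∑' w, b w ^ t < 1 := by
    rwa [← ENNReal.ofReal_one, ENNReal.ofReal_lt_ofReal_iff one_pos] at h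
  filter_upwards [hat.eventually (gt_mem_nhds h1), lt_mem_nhds ht] with s hs hs0
  rw [hW s hs0, ← ENNReal.ofReal_one, ENNReal.ofReal_lt_ofReal_iff one_pos]
  exact hs

/-- the zero of the pressure -/
theorem exists_zero (ha : ∀ w, 0 < a w) (ha1 : ∀ w, a w ≤ 1) (hK : 1 ≤ K)
    (hsub : ∀ v w, a (v ++ w) ≤ a v * a w) (hsup : ∀ v w, a v * a w ≤ K * a (v ++ w))
    (hfin : ∀ t, 0 < t → Ws (pw a t) 1 ≠ ⊤) {t₀ t₁ : ℝ} (ht₀ : 0 < t₀)
    (h₀ : ∀ N, 1 ≤ Ws (pw a t₀) N) (h₁ : Ws (pw a t₁) 1 < 1) :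
    ∃ t, 0 < t ∧ ∀ N, 1 ≤ Ws (pw a t) N ∧ Ws (pw a t) N ≤ ENNReal.ofReal (K ^ t) := by
  obtain ⟨A, hA⟩ : ∃ A : Set ℝ, A = {t | 0 < t ∧ ∀ N, 1 ≤ Ws (pw a t) N} := ⟨_, rfl⟩
  have hA0 : t₀ ∈ A := by rw [hA]; exact ⟨ht₀, h₀⟩
  have hbdd : BddAbove A := by
    refine ⟨t₁, fun t ht => ?_⟩
    rw [hA] at ht
    by_contra hcon
    push Not at hcon
    have h1 : Ws (pw a t) 1 ≤ Ws (pw a t₁) 1 := Ws_mono (fun w => pw_anti ha ha1 hcon.le w) 1
    exact absurd ((ht.2 1).trans h1) (not_le.2 h₁)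
  obtain ⟨t, ht⟩ : ∃ t, t = sSup A := ⟨_, rfl⟩
  have ht0 : 0 < t := by rw [ht]; exact ht₀.trans_le (le_csSup hbdd hA0)
  have htA : ∀ N, 1 ≤ Ws (pw a t) N := by
    intro N
    by_contra hcon
    push Not at hcon
    have h1 := Ws_lt_one_nhds ha ha1 hsub hfin ht0 N hcon
    obtain ⟨l, u, h2, h3⟩ := mem_nhds_iff_exists_Ioo_subset.1 h1
    obtain ⟨s, hs, hs'⟩ := exists_lt_of_lt_csSup ⟨t₀, hA0⟩ (show l < sSup A by rw [← ht]; exact h2.1)
    have h4 : s ≤ t := by rw [ht]; exact le_csSup hbdd hs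
    have h5 := h3 ⟨hs', lt_of_le_of_lt h4 h2.2⟩
    rw [hA] at hs
    exact absurd (hs.2 N) (not_le.2 h5)
  refine ⟨t, ht0, fun M => ⟨htA M, ?_⟩⟩
  -- bounded for larger exponents
  have hbig : ∀ s, t < s → Ws (pw a s) M ≤ ENNReal.ofReal (K ^ s) := by
    intro s hs
    have hs0 : 0 < s := ht0.trans hs
    have hsA : s ∉ A := fun h => absurd (le_csSup hbdd h) (by rw [← ht]; exact not_le.2 hs)
    rw [hA] at hsA
    simp only [mem_ofPred_eq, not_and, not_forall] at hsA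
    obtain ⟨N, hN⟩ := hsA hs0
    push Not at hN
    have hN1 : 1 ≤ N := by
      by_contra hcon
      have : N = 0 := by omega
      rw [this, Ws_zero] at hN
      have h1 := htA 0
      rw [Ws_zero] at h1
      have h2 : pw a s [] ≤ 1 ∧ 1 ≤ pw a t [] := ⟨hN.le, h1⟩
      have h3 : 1 ≤ a [] := by
        unfold pw at h2
        have h4 := h2.2
        rw [ENNReal.one_le_ofReal] at h4
        by_contra hlt
        push Not at hlt
        exact absurd (Real.rpow_lt_one (ha _).le hlt ht0) (not_lt.2 h4)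
      have h4 : 1 ≤ pw a s [] := by
        unfold pw
        rw [ENNReal.one_le_ofReal]
        exact Real.one_le_rpow h3 hs0.le
      exact absurd h4 (not_le.2 hN)
    have hC : (1 : ℝ≥0∞) ≤ ENNReal.ofReal (K ^ s) := by
      rw [ENNReal.one_le_ofReal]
      exact Real.one_le_rpow hK hs0.le
    refine Ws_bounded hC ENNReal.ofReal_ne_top ?_ (pw_sub ha hsub hs0.le)
      (pw_super ha (by linarith) hsup hs0.le) hN1 hN M
    unfold pw
    rw [ENNReal.ofReal_le_one]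
    exact Real.rpow_le_one (ha _).le (ha1 _) hs0.le
  unfold Ws
  rw [ENNReal.tsum_eq_iSup_sum]
  refine iSup_le fun F => ?_
  have hfs : ∀ s, ∑ w ∈ F, pw a s (List.ofFn w) =
      ENNReal.ofReal (∑ w ∈ F, a (List.ofFn w) ^ s) := by
    intro s
    rw [ENNReal.ofReal_sum_of_nonneg fun w _ => Real.rpow_nonneg (ha _).le _]
    rfl
  rw [hfs]
  refine ENNReal.ofReal_le_ofReal ?_
  have h1 : ∀ s ∈ Ioi t, ∑ w ∈ F, a (List.ofFn w) ^ s ≤ K ^ s := by
    intro s hs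
    have h2 := (ENNReal.sum_le_tsum F).trans (hbig s hs)
    rw [hfs] at h2
    rwa [ENNReal.ofReal_le_ofReal_iff (Real.rpow_nonneg (by linarith) _)] at h2
  have hc1 : Tendsto (fun s => ∑ w ∈ F, a (List.ofFn w) ^ s) (𝓝[>] t)
      (𝓝 (∑ w ∈ F, a (List.ofFn w) ^ t)) := by
    refine Tendsto.mono_left ?_ nhdsWithin_le_nhds
    refine tendsto_finsetSum _ fun w _ => ?_
    exact (Real.continuous_const_rpow (ha _).ne').tendsto t
  have hc2 : Tendsto (fun s => K ^ s) (𝓝[>] t) (𝓝 (K ^ t)) :=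
    ((Real.continuous_const_rpow (by linarith : K ≠ 0)).tendsto t).mono_left nhdsWithin_le_nhds
  exact le_of_tendsto_of_tendsto hc1 hc2 (eventually_nhdsWithin_of_forall h1)

theorem log_tendsto {z : ℕ → ℝ≥0∞} {C : ℝ} (h : ∀ N, 1 ≤ z N ∧ z N ≤ ENNReal.ofReal C) :
    Tendsto (fun N : ℕ => ENNReal.log (z N) / (N : EReal)) atTop (𝓝 0) := by
  have hC1 : 1 ≤ C := by
    have := (h 0).1.trans (h 0).2
    rwa [ENNReal.one_le_ofReal] at this
  have h1 : ∀ N, ∃ x : ℝ, z N = ENNReal.ofReal x ∧ 1 ≤ x ∧ x ≤ C := by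
    intro N
    have hne : z N ≠ ⊤ := ne_top_of_le_ne_top ENNReal.ofReal_ne_top (h N).2
    refine ⟨(z N).toReal, (ENNReal.ofReal_toReal hne).symm, ?_, ?_⟩
    · have := ENNReal.toReal_mono hne (h N).1
      simpa using this
    · have := ENNReal.toReal_mono ENNReal.ofReal_ne_top (h N).2
      rwa [ENNReal.toReal_ofReal (by linarith)] at this
  choose x hx1 hx2 hx3 using h1
  have h2 : Tendsto (fun N : ℕ => Real.log (x N) / (N : ℝ)) atTop (𝓝 0) := by
    refine squeeze_zero (fun N => div_nonneg (Real.log_nonneg (hx2 N)) (Nat.cast_nonneg N))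
      (fun N => ?_) (tendsto_const_div_atTop_nhds_zero_nat (Real.log C))
    exact div_le_div_of_nonneg_right (Real.log_le_log (by linarith [hx2 N]) (hx3 N))
      (Nat.cast_nonneg N)
  have h3 := (continuous_coe_real_ereal.tendsto 0).comp h2
  refine Tendsto.congr (fun N => ?_) h3
  simp only [Function.comp]
  rw [hx1 N, ENNReal.log_ofReal_of_pos (by linarith [hx2 N]), EReal.coe_div]
  rfl

end zero

end Pool.Agent.Helper65K9.IFS
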