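import Pool.Agent.Helper65K9.IFS.Mob

/-!
Regularity of the systems of the maps `z ↦ 1 / (z + α)`.
-/

set_option autoImplicit false

namespace Pool.Agent.Helper65K9.IFS
open Set Filter
open scoped ENNReal NNReal Topology

variable {ι : Type} {α : ι → ℂ} {d R R' : ℝ}

theorem one_le_R' (h : Par α d R R') : 1 ≤ R' := by linarith [h.R_gt, h.R_lt]

theorem chain (h : Par α d R R') (v w : List ι) {x : ℂ} (hx : ‖x‖ ≤ R') :
    ‖deriv (word (fun i => gMap (α i)) (v ++ w)) x‖ =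
      ‖deriv (word (fun i => gMap (α i)) v) (word (fun i => gMap (α i)) w x)‖ *
        ‖deriv (word (fun i => gMap (α i)) w) x‖ := by
  obtain ⟨-, -, h3, h4⟩ := word_nd h w hx
  obtain ⟨-, -, -, h5⟩ := word_nd h v h3
  rw [word_append, (h5.comp x h4).deriv, norm_mul, h5.deriv, h4.deriv]

theorem exists_max (h : Par α d R R') (w : List ι) : ∃ x₀ ∈ X, ∀ x ∈ X,
    ‖deriv (word (fun i => gMap (α i)) w) x‖ ≤ ‖deriv (word (fun i => gMap (α i)) w) x₀‖ := by
  have hc : Continuous fun x : ℂ => ‖(nd α w x).2‖ := by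
    have h1 : (fun x : ℂ => ‖(nd α w x).2‖) =
        fun x => ‖(nd α w 0).2 + x * ((nd α w 1).2 - (nd α w 0).2)‖ := by
      funext x
      rw [(nd_affine w x).2]
    rw [h1]
    fun_prop
  have hX : IsCompact X := isCompact_closedBall _ _
  obtain ⟨x₀, hx₀, hmin⟩ := hX.exists_isMinOn ⟨0, by rw [mem_X]; simp⟩ hc.continuousOn
  refine ⟨x₀, hx₀, fun x hx => ?_⟩
  have h1 := one_le_R' h
  have hx' := mem_X.1 hx
  have hx₀' := mem_X.1 hx₀
  rw [norm_deriv h w (hx'.trans h1), norm_deriv h w (hx₀'.trans h1)]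
  have h2 : 0 < ‖(nd α w x₀).2‖ := norm_pos_iff.2 (word_nd h w (hx₀'.trans h1)).1
  have h3 : ‖(nd α w x₀).2‖ ≤ ‖(nd α w x).2‖ := hmin hx
  exact one_div_le_one_div_of_le (by positivity) (pow_le_pow_left₀ h2.le h3 2)

theorem norm_deriv_one (h : Par α d R R') (i : ι) {z : ℂ} (hz : ‖z‖ ≤ R') :
    ‖deriv (word (fun i => gMap (α i)) [i]) z‖ = 1 / ‖z + α i‖ ^ 2 := by
  rw [norm_deriv h [i] hz]
  simp only [nd, mul_one]
  rw [add_comm]

theorem norm_deriv_pos (h : Par α d R R') (w : List ι) {z : ℂ} (hz : ‖z‖ ≤ R') :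
    0 < ‖deriv (word (fun i => gMap (α i)) w) z‖ := by
  rw [norm_deriv h w hz]
  have : 0 < ‖(nd α w z).2‖ := norm_pos_iff.2 (word_nd h w hz).1
  positivity

theorem regular_g [Countable ι] (h : Par α d R R')
    (hfin : ∀ t : ℝ, 0 < t → ∑' i, ENNReal.ofReal ((1 / (‖α i‖ - 1) ^ 2) ^ t) ≠ ⊤)
    (h₀ : ∃ t₀ : ℝ, 0 < t₀ ∧ 1 ≤ ∑' i, ENNReal.ofReal ((1 / (‖α i‖ + 1) ^ 2) ^ t₀))
    (h₁ : ∃ t₁ : ℝ, 0 < t₁ ∧ ∑' i, ENNReal.ofReal ((1 / (‖α i‖ - 1) ^ 2) ^ t₁) < 1) :
    Regular fun i => gMap (α i) := by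
  have h1R := one_le_R' h
  have htwo := h.two
  obtain ⟨s, hs⟩ : ∃ s : ι → ℂ → ℂ, s = fun i => gMap (α i) := ⟨_, rfl⟩
  have hmax : ∀ w : List ι, ∃ x₀ ∈ X, ∀ x ∈ X, ‖deriv (word s w) x‖ ≤ ‖deriv (word s w) x₀‖ := by
    rw [hs]; exact exists_max h
  choose x₀ hx₀ hmax using hmax
  obtain ⟨a, ha⟩ : ∃ a : List ι → ℝ, a = fun w => ‖deriv (word s w) (x₀ w)‖ := ⟨_, rfl⟩
  have hbd : ∀ {x : ℂ}, x ∈ X → ‖x‖ ≤ R' := fun hx => (mem_X.1 hx).trans h1R
  have hmapsw : ∀ w : List ι, MapsTo (word s w) X X := by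
    rw [hs]; exact word_maps fun i => gMap_maps h i
  have hchain : ∀ (v w : List ι) {x : ℂ}, x ∈ X → ‖deriv (word s (v ++ w)) x‖ =
      ‖deriv (word s v) (word s w x)‖ * ‖deriv (word s w) x‖ := by
    intro v w x hx
    rw [hs]; exact chain h v w (hbd hx)
  have hpos : ∀ (w : List ι) {x : ℂ}, x ∈ X → 0 < ‖deriv (word s w) x‖ := by
    intro w x hx
    rw [hs]; exact norm_deriv_pos h w (hbd hx)
  have hdist : ∀ (w : List ι) {x y : ℂ}, x ∈ X → y ∈ X → ‖deriv (word s w) y‖ ≤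
      dist0 R R' * ‖deriv (word s w) x‖ := by
    intro w x y hx hy
    rw [hs]
    exact distortion h w ((mem_X.1 hx).trans h.R_gt.le) ((mem_X.1 hy).trans h.R_gt.le)
  have ha0 : ∀ w, 0 < a w := fun w => by rw [ha]; exact hpos w (hx₀ w)
  have hale : ∀ w {x : ℂ}, x ∈ X → ‖deriv (word s w) x‖ ≤ a w := fun w x hx => by
    rw [ha]; exact hmax w x hx
  have hsub : ∀ v w, a (v ++ w) ≤ a v * a w := by
    intro v w
    have h2 : a (v ++ w) = ‖deriv (word s (v ++ w)) (x₀ (v ++ w))‖ := by rw [ha]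
    rw [h2, hchain v w (hx₀ _)]
    exact mul_le_mul (hale v (hmapsw w (hx₀ _))) (hale w (hx₀ _)) (norm_nonneg _) (ha0 v).le
  have hsup : ∀ v w, a v * a w ≤ dist0 R R' * a (v ++ w) := by
    intro v w
    have h2 : a w = ‖deriv (word s w) (x₀ w)‖ := by rw [ha]
    have h3 : a v = ‖deriv (word s v) (x₀ v)‖ := by rw [ha]
    have h4 := hdist v (hmapsw w (hx₀ w)) (hx₀ v)
    rw [← h3] at h4
    have h5 := hale (v ++ w) (hx₀ w)
    rw [hchain v w (hx₀ w), ← h2] at h5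
    have h6 := dist0_ge h
    calc a v * a w ≤ dist0 R R' * ‖deriv (word s v) (word s w (x₀ w))‖ * a w :=
          mul_le_mul_of_nonneg_right h4 (ha0 w).le
      _ = dist0 R R' * (‖deriv (word s v) (word s w (x₀ w))‖ * a w) := by ring
      _ ≤ _ := mul_le_mul_of_nonneg_left h5 (by linarith)
  have hone : ∀ (i : ι) {x : ℂ}, x ∈ X → ‖deriv (word s [i]) x‖ = 1 / ‖x + α i‖ ^ 2 := by
    intro i x hx
    rw [hs]; exact norm_deriv_one h i (hbd hx)
  have hupp : ∀ i, a [i] ≤ 1 / (‖α i‖ - 1) ^ 2 := by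
    intro i
    have h2 : a [i] = ‖deriv (word s [i]) (x₀ [i])‖ := by rw [ha]
    rw [h2, hone i (hx₀ _)]
    have h3 := h.le i
    have h4 := mem_X.1 (hx₀ [i])
    have h5 := norm_sub_norm_le (α i) (-(x₀ [i]))
    rw [norm_neg, sub_neg_eq_add, add_comm (α i)] at h5
    refine one_div_le_one_div_of_le (pow_pos (by linarith) 2) ?_
    exact pow_le_pow_left₀ (by linarith) (by linarith) 2
  have hlow : ∀ w : List ι, ∀ x ∈ X, (w.map fun i => 1 / (‖α i‖ + 1) ^ 2).prod ≤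
      ‖deriv (word s w) x‖ := by
    intro w
    induction w with
    | nil =>
      intro x _
      simp [word]
    | cons i w ih =>
      intro x hx
      have h2 := hchain [i] w hx
      rw [List.singleton_append] at h2
      rw [h2, List.map_cons, List.prod_cons, hone i (hmapsw w hx)]
      have h3 := h.le i
      refine mul_le_mul ?_ (ih x hx) (List.prod_nonneg ?_) (by positivity)
      · have h4 := mem_X.1 (hmapsw w hx)
        have h5 : ‖word s w x + α i‖ ≤ ‖α i‖ + 1 := (norm_add_le _ _).trans (by linarith)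
        have h6 : 0 < ‖word s w x + α i‖ := by
          have h7 := norm_add_ge h i (word s w x)
          linarith
        exact one_div_le_one_div_of_le (by positivity) (pow_le_pow_left₀ h6.le h5 2)
      · intro b hb
        obtain ⟨j, -, rfl⟩ := List.mem_map.1 hb
        positivity
  have ha1 : ∀ w, a w ≤ 1 := by
    intro w
    induction w with
    | nil =>
      have h2 : a [] = ‖deriv (word s []) (x₀ [])‖ := by rw [ha]
      rw [h2]
      simp [word]
    | cons i w ih =>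
      have h2 := hsub [i] w
      rw [List.singleton_append] at h2
      have h3 : a [i] ≤ 1 := by
        refine (hupp i).trans ?_
        have h4 := h.le i
        rw [div_le_one (pow_pos (by linarith) 2)]
        nlinarith
      exact h2.trans (mul_le_one₀ h3 (ha0 w).le ih)
  have hW1 : ∀ t, Ws (pw a t) 1 = ∑' i, pw a t [i] := by
    intro t
    rw [show (1 : ℕ) = 0 + 1 from rfl, Ws_succ]
    exact tsum_congr fun i => Ws_zero _
  have hpwle : ∀ t, 0 < t → ∀ i, pw a t [i] ≤ ENNReal.ofReal ((1 / (‖α i‖ - 1) ^ 2) ^ t) :=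
    fun t ht i => ENNReal.ofReal_le_ofReal (Real.rpow_le_rpow (ha0 _).le (hupp i) ht.le)
  obtain ⟨t₀, ht₀, h₀⟩ := h₀
  obtain ⟨t₁, ht₁, h₁⟩ := h₁
  obtain ⟨t, ht, hz⟩ := exists_zero (K := dist0 R R') ha0 ha1 (dist0_ge h) hsub hsup
    (fun t ht => by
      rw [hW1]
      exact ne_top_of_le_ne_top (hfin t ht) (ENNReal.tsum_le_tsum (hpwle t ht))) ht₀
    (fun N => by
      have h2 := Ws_prod (fun i => ENNReal.ofReal ((1 / (‖α i‖ + 1) ^ 2) ^ t₀)) N
      have h3 : (1 : ℝ≥0∞) ≤ (∑' i, ENNReal.ofReal ((1 / (‖α i‖ + 1) ^ 2) ^ t₀)) ^ N :=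
        one_le_pow₀ h₀
      rw [← h2] at h3
      refine h3.trans (Ws_mono (fun w => ?_) N)
      rw [← prod_rpow (fun i => by positivity)]
      refine ENNReal.ofReal_le_ofReal (Real.rpow_le_rpow (List.prod_nonneg ?_)
        ((hlow w _ (hx₀ w)).trans (hale w (hx₀ w))) ht₀.le)
      intro b hb
      obtain ⟨j, -, rfl⟩ := List.mem_map.1 hb
      positivity)
    (by
      rw [hW1]
      exact (ENNReal.tsum_le_tsum (hpwle t₁ ht₁)).trans_lt h₁)
  refine ⟨t, ht.le, ?_⟩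
  unfold HasPressure
  have hsum : ∀ N, pressureSum (fun i => gMap (α i)) N t = Ws (pw a t) N := by
    intro N
    unfold pressureSum Ws pw
    refine tsum_congr fun w => ?_
    rw [← hs]
    refine le_antisymm (iSup₂_le fun x hx => ?_) ?_
    · exact ENNReal.ofReal_le_ofReal (Real.rpow_le_rpow (norm_nonneg _) (hale _ hx) ht.le)
    · refine le_trans (le_of_eq ?_) (le_iSup₂ (f := fun x _ =>
        ENNReal.ofReal (‖deriv (word s (List.ofFn w)) x‖ ^ t)) (x₀ (List.ofFn w)) (hx₀ _))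
      rw [ha]
  simp only [hsum]
  exact log_tendsto hz

end Pool.Agent.Helper65K9.IFS
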