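import Pool.Agent.Helper65K9.IFS.Low

/-!
# Dimension comparison for linear and Möbius systems on the disc: a counterexample

For `T = 2` and `d_n = (2 + 10^(-8)) 10^(4 (n-1))` (so `d_1 = 2.00000001`, and the other `d_n` are
large) both `F(d, T)` and `G(d, T)` are conformal iterated function systems, `G(d, T)` is regular,
and `h_F ≤ 7/11 < 9/14 ≤ h_G`.

Idea: `F(d, 2)` is close to a system of two maps of ratio `1 / (d_1² - 1) ≈ 1/3`, so `h_F` is close
to `log 2 / log 3 = 0.6309...`. The system `G(d, 2)` contains the maps `1 / (z ± d_1)`, and the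
composition `z ↦ 1/(d_1 - 1/(d_1 - z))` is nearly parabolic at `1`: the compositions
`z ↦ 1/(d_1 + b^k(z))` with `b(z) = 1/(d_1 - z)` (`0 ≤ k ≤ 33`) have ratios at least
`(2 k + 2.51)^(-2)`, and the sum of the `9/14`-th powers of these numbers is larger than `1`.
-/

set_option autoImplicit false

namespace Pool.Agent.Helper65K9.IFS.TwoRaysVariant

open Pool.Agent.Helper65K9.IFS

/-- the counterexample; `d n` stands for `d_{n+1}` -/
theorem result : ∃ d : ℕ → ℝ, (∀ n, d n = (2 + 1 / 10 ^ 8) * 10 ^ (4 * n)) ∧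
    2 ≤ d 0 ∧ (∀ n, 2 ≤ d (n + 1) - d n) ∧
    IsCIFS (famF d 2) ∧ IsCIFS (famG d 2) ∧ Regular (famG d 2) ∧
    dimH (limitSet (famF d 2)) ≤ ENNReal.ofReal (7 / 11) ∧
    ENNReal.ofReal (9 / 14) ≤ dimH (limitSet (famG d 2)) ∧
    dimH (limitSet (famF d 2)) < dimH (limitSet (famG d 2)) :=
  ⟨dd, fun _ => rfl, by rw [dd_zero]; norm_num, dd_step, isCIFS_F, isCIFS_G, regular_G, dimH_F,
    dimH_G, dimH_lt⟩

end Pool.Agent.Helper65K9.IFS.TwoRaysVariant
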