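import Pool.Agent.Helper65K9.IFS.Defs
import Pool.Agent.Helper65K9.IFS.Press

/-!
An upper bound for the Hausdorff dimension of limit sets.
-/

set_option autoImplicit false

namespace Pool.Agent.Helper65K9.IFS
open Set Filter MeasureTheory
open scoped ENNReal NNReal Topology

variable {ι : Type} {s : ι → ℂ → ℂ}

theorem word_maps (hmaps : ∀ i, MapsTo (s i) X X) (w : List ι) : MapsTo (word s w) X X := by
  induction w with
  | nil => exact fun x hx => hx
  | cons i w ih => exact (hmaps i).comp ih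

theorem word_append (v w : List ι) : word s (v ++ w) = word s v ∘ word s w := by
  induction v with
  | nil => rfl
  | cons i v ih =>
    rw [List.cons_append]
    simp only [word]
    rw [ih]
    rfl

theorem word_lip {r : ι → ℝ} (hmaps : ∀ i, MapsTo (s i) X X) (hr0 : ∀ i, 0 ≤ r i)
    (hlip : ∀ i, ∀ x ∈ X, ∀ y ∈ X, ‖s i x - s i y‖ ≤ r i * ‖x - y‖) (w : List ι) :
    ∀ x ∈ X, ∀ y ∈ X, ‖word s w x - word s w y‖ ≤ (w.map r).prod * ‖x - y‖ := by
  induction w with
  | nil => intro x _ y _; simp [word]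
  | cons i w ih =>
    intro x hx y hy
    have h1 := hlip i _ (word_maps hmaps w hx) _ (word_maps hmaps w hy)
    have h2 := mul_le_mul_of_nonneg_left (ih x hx y hy) (hr0 i)
    rw [List.map_cons, List.prod_cons]
    simp only [word, Function.comp]
    linarith

theorem dist_le_two {x y : ℂ} (hx : x ∈ X) (hy : y ∈ X) : ‖x - y‖ ≤ 2 := by
  unfold X at hx hy
  rw [mem_closedBall_zero_iff] at hx hy
  linarith [norm_sub_le x y]

theorem prod_rpow {r : ι → ℝ} (hr0 : ∀ i, 0 ≤ r i) (t : ℝ) (w : List ι) :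
    ENNReal.ofReal ((w.map r).prod ^ t) = (w.map fun i => ENNReal.ofReal (r i ^ t)).prod := by
  induction w with
  | nil => simp
  | cons i w ih =>
    rw [List.map_cons, List.prod_cons, List.map_cons, List.prod_cons, ← ih,
      Real.mul_rpow (hr0 i) (List.prod_nonneg (by
        intro a ha
        obtain ⟨j, -, rfl⟩ := List.mem_map.1 ha
        exact hr0 j)), ENNReal.ofReal_mul (Real.rpow_nonneg (hr0 i) _)]

theorem dimH_limitSet_le [Countable ι] {r : ι → ℝ} {ρ t : ℝ} (hmaps : ∀ i, MapsTo (s i) X X)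
    (hr0 : ∀ i, 0 ≤ r i) (hρ : ρ < 1) (hρ0 : 0 ≤ ρ) (hrρ : ∀ i, r i ≤ ρ)
    (hlip : ∀ i, ∀ x ∈ X, ∀ y ∈ X, ‖s i x - s i y‖ ≤ r i * ‖x - y‖) (ht : 0 < t)
    (hsum : ∑' i, ENNReal.ofReal (r i ^ t) ≤ 1) : dimH (limitSet s) ≤ ENNReal.ofReal t := by
  have hprod0 : ∀ w : List ι, 0 ≤ (w.map r).prod := fun w => List.prod_nonneg (by
    intro a ha
    obtain ⟨j, -, rfl⟩ := List.mem_map.1 ha
    exact hr0 j)
  have hdiam : ∀ w : List ι, Metric.ediam (word s w '' X) ≤ ENNReal.ofReal (2 * (w.map r).prod) := by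
    intro w
    refine Metric.ediam_le ?_
    rintro _ ⟨x, hx, rfl⟩ _ ⟨y, hy, rfl⟩
    rw [edist_dist, dist_eq_norm]
    refine ENNReal.ofReal_le_ofReal ?_
    have h1 := word_lip hmaps hr0 hlip w x hx y hy
    have h2 := mul_le_mul_of_nonneg_left (dist_le_two hx hy) (hprod0 w)
    linarith
  have hprodρ : ∀ w : List ι, (w.map r).prod ≤ ρ ^ w.length := by
    intro w
    induction w with
    | nil => simp
    | cons i w ih =>
      rw [List.map_cons, List.prod_cons, List.length_cons, pow_succ, mul_comm]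
      exact mul_le_mul ih (hrρ i) (hr0 i) (by positivity)
  have h1 := Measure.hausdorffMeasure_le_liminf_tsum (ι := fun N : ℕ => Fin N → ι) (l := atTop) t
    (limitSet s) (fun N : ℕ => ENNReal.ofReal (2 * ρ ^ N)) ?_
    (fun (N : ℕ) (w : Fin N → ι) => word s (List.ofFn w) '' X) ?_ ?_
  · have h2 : μH[t] (limitSet s) ≤ ENNReal.ofReal (2 ^ t) := by
      refine h1.trans ?_
      refine (liminf_le_liminf (Eventually.of_forall fun N => ?_)).trans
        (liminf_const (f := (atTop : Filter ℕ)) (ENNReal.ofReal (2 ^ t))).le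
      have h3 : ∀ w : Fin N → ι, Metric.ediam (word s (List.ofFn w) '' X) ^ t ≤
          ENNReal.ofReal (2 ^ t) *
            ((List.ofFn w).map fun i => ENNReal.ofReal (r i ^ t)).prod := by
        intro w
        refine (ENNReal.rpow_le_rpow (hdiam _) ht.le).trans ?_
        rw [ENNReal.ofReal_rpow_of_nonneg (mul_nonneg zero_le_two (hprod0 _)) ht.le,
          Real.mul_rpow zero_le_two (hprod0 _), ENNReal.ofReal_mul (by positivity), prod_rpow hr0]
      refine (ENNReal.tsum_le_tsum h3).trans ?_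
      rw [ENNReal.tsum_mul_left]
      have h4 := Ws_prod (fun i => ENNReal.ofReal (r i ^ t)) N
      unfold Ws at h4
      rw [h4]
      calc ENNReal.ofReal (2 ^ t) * (∑' i, ENNReal.ofReal (r i ^ t)) ^ N
          ≤ ENNReal.ofReal (2 ^ t) * 1 := mul_le_mul_right (pow_le_one₀ bot_le hsum) _
        _ = _ := mul_one _
    have h5 : ((Real.toNNReal t : ℝ≥0) : ℝ) = t := Real.coe_toNNReal _ ht.le
    have h6 : μH[((Real.toNNReal t : ℝ≥0) : ℝ)] (limitSet s) ≠ ⊤ := by
      rw [h5]
      exact ne_top_of_le_ne_top ENNReal.ofReal_ne_top h2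
    exact dimH_le_of_hausdorffMeasure_ne_top h6
  · have h3 : Tendsto (fun N : ℕ => 2 * ρ ^ N) atTop (𝓝 (2 * 0)) :=
      (tendsto_pow_atTop_nhds_zero_of_lt_one hρ0 hρ).const_mul 2
    rw [mul_zero] at h3
    have := ENNReal.tendsto_ofReal h3
    rwa [ENNReal.ofReal_zero] at this
  · refine Eventually.of_forall fun N w => (hdiam _).trans (ENNReal.ofReal_le_ofReal ?_)
    have := hprodρ (List.ofFn w)
    rw [List.length_ofFn] at this
    linarith
  · filter_upwards [eventually_ge_atTop 1] with N hN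
    rintro x ⟨ω, hω⟩
    rw [mem_iUnion]
    exact ⟨fun k => ω k, hω N hN⟩

end Pool.Agent.Helper65K9.IFS
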